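import Pool.Agent.H83.VA.T
import Pool.Agent.H44.V0P.Vda
import Pool.Agent.H44.V0P.Lab
import Pool.Agent.H12.LPK.Evp

/-!
# Near-dead codes of a steep place and a flatter last place, on one event: statements

`NEv`: the labels of one event. `FdE`: far-dead. `NdE`: the own jets known near: all orders of both
places but one alive order of each. `NdaStmt`: then the codes of all orders are few bits given the
near jets of the slope-one places and a record near `w + u`. `NiStmt`, `NcStmt`, `NkStmt`, `NrStmt`,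
`NqStmt`: the pieces (no look-ahead of the record, the context, the near path from the context, the
two rows).
-/

set_option autoImplicit false

namespace Pool.NA98

open Finset Real MvPolynomial
open Pool.Agent.H49.Ent Pool.Agent.H32.Dense
open Pool.STK hiding pr2
open Pool.KA Pool.KSAT Pool.K2S Pool.PB Pool.S6C
open Pool.GEN Pool.CHT Pool.CHX Pool.ISO Pool.LA91 Pool.AVG71 Pool.AVG5 Pool.D2F2 Pool.AVG57
open Pool.RCD Pool.AVG96 Pool.OWN68 Pool.V0F Pool.VA83 Pool.XR71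
open Pool.AJW (CfB)
open Pool.GRD (LbP)
open Pool.TW44 (LV)

/-- **The labels of one event**: charts of the slope-one places over the windows `b` and `w` (over `w`
also of the place `k`) of the closeness `φ'`, labels of both targets over `w` of the closeness `φ`. -/
structure NEv {m J : ℕ} (F : Fam m J) (c : ℕ → Fin m) (k D : ℕ) (sn : ℕ → ℝ → ℝ)
    (b w φ' φ E : ℝ) (K₀ : ℕ) (e₀ ρ₀ : ℝ) (A : F.Ω → Prop)
    (Hb Hw H : LnT F → ℕ → MvPolynomial (Option (Fin m)) ℝ) : Prop where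
  vb : LV F c k D b φ' E sn A Hb
  vw : LV F c (k + 1) D w φ' E sn A Hw
  hb : ∀ ω, ∀ l < k, H (slam F ⌊w * J⌋₊ ω) l = Hb (slam F ⌊b * J⌋₊ ω) l
  lt : ∀ l, k ≤ l → l ≤ k + 1 → ∃ (V : Type) (z : PtT F → V) (z' : LnT F → V)
    (G : V → MvPolynomial (Option (Fin m)) ℝ),
    LbP F ((range l).image c) (c l) D J ⌊w * J⌋₊ ⌊(sn l w - φ) * J⌋₊ A z z' G ∧
      ∀ s, G (z' s) = H s l
  cw : ∀ l, k ≤ l → l ≤ k + 1 → CfB F ⌊w * J⌋₊ E (c l) A (fun s => s) (fun s => H s l)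
  ln : ∃ (V : Type) (z : PtT F → V) (z' : LnT F → V) (g : V → MvPolynomial (Option (Fin m)) ℝ),
    LbOK F ((range (k + 1)).image c) (c (k + 1)) K₀ ⌊e₀ * J⌋₊ J ⌊w * J⌋₊ ⌊ρ₀ * J⌋₊
      ⌊(sn (k + 1) w - φ) * J⌋₊ A z z' g ∧ ∀ s, g (z' s) = H s (k + 1)

/-- The near jets of the slope-one places. -/
noncomputable def nrJ {m J : ℕ} (F : Fam m J) (c : ℕ → Fin m) (k : ℕ) (sn : ℕ → ℝ → ℝ)
    (w u φ : ℝ) (H : LnT F → ℕ → MvPolynomial (Option (Fin m)) ℝ) (ω : F.Ω) : ℕ → ℕ → ℤ :=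
  jet2 F c ⌊w * J⌋₊ H 0 k
    (fun l' j' => sn l' w + u + 400 * ((k : ℝ) + 2) * φ - (j' : ℝ) * w) ω

/-- The digits of the own jet `i` of the target `l` at the precision `N`. -/
noncomputable def tj {m J : ℕ} (F : Fam m J) (c : ℕ → Fin m) (w : ℝ)
    (H : LnT F → ℕ → MvPolynomial (Option (Fin m)) ℝ) (l i : ℕ) (N : ℝ) (ω : F.Ω) : ℤ :=
  ⌊(2 : ℝ) ^ (N * J) * ojet F (c l) i (H (slam F ⌊w * J⌋₊ ω) l) ω⌋

/-- The known digits behind the natural ones, in units: none for the alive order. -/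
noncomputable def dgA (k : ℕ) (al be : ℝ) (l i : ℕ) : ℝ :=
  if l = k then (if al - 1 < i ∧ (i : ℝ) ≤ al then 0 else 1)
  else if be - be / al < i ∧ (i : ℝ) ≤ be then 0 else be / al

/-- **Far-dead**: the codes of order at least one, given the far jets of the slope-one places. -/
def FdE {m J : ℕ} (F : Fam m J) (c : ℕ → Fin m) (k D : ℕ) (sn : ℕ → ℝ → ℝ) (w u T δ : ℝ)
    (d : ℕ → ℝ) (H : LnT F → ℕ → MvPolynomial (Option (Fin m)) ℝ) (B : F.Ω → Prop) : Prop :=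
  ∀ l, k ≤ l → l ≤ k + 1 → ∀ N' : ℕ, (N' : ℝ) ≤ (sn l w + d l * u) * J →
    CH (Pool.Agent.H49.Ent.cond F.p B True)
      (Pool.AVG57.cod F ⌊w * J⌋₊ (fun s' => H s' l) (c l) N' 1 (D + 1))
      (fun ω => (jet2 F c ⌊w * J⌋₊ H 0 k (fun l' j' => sn l' w + T * u - (j' : ℝ) * w) ω,
        (cR F B w ω, F.W ω))) ≤ δ * u * J

/-- **The jets known near**: all orders but one alive order of each target. -/
def NdE {m J : ℕ} (F : Fam m J) (c : ℕ → Fin m) (k D : ℕ) (sn : ℕ → ℝ → ℝ)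
    (al be w u φ δ x : ℝ) (H : LnT F → ℕ → MvPolynomial (Option (Fin m)) ℝ)
    (B : F.Ω → Prop) : Prop :=
  ∀ l, k ≤ l → l ≤ k + 1 → ∀ i ≤ D + 1, CH (Pool.Agent.H49.Ent.cond F.p B True)
    (tj F c w H l i (sn l w + dgA k al be l i * u - i * w))
    (fun ω => (nrJ F c k sn w u φ H ω, (cR F B x ω, F.W ω))) ≤ δ * u * J

/-- **(NDA)** Near-dead on one event. -/
def NdaStmt : Prop := ∀ (k D : ℕ) (al be h ε : ℝ), 1 ≤ k → 1 ≤ D → 1 ≤ be → be < al → 0 < h →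
  h ≤ 1 → 0 < ε → ∃ δ₂ : ℝ, 0 < δ₂ ∧ ∀ T : ℝ, 1 ≤ T → ∃ φ₂ Λ₀ : ℝ, 0 < φ₂ ∧
  ∀ {m : ℕ} {S : PCl m} {c : ℕ → Fin m} {sn sp : ℕ → ℝ → ℝ} {G : Set ℝ}
    {b o w u Λ φ' e' : ℝ} {lam : ℝ → ℝ}, XBox S c k sn sp G al be h b o w u Λ φ' e' lam →
    Λ₀ ≤ Λ → 0 ≤ e' → e' ≤ φ₂ → ∀ {K₀ : ℕ} {e₀ ρ₀ π₁ φ x : ℝ},
    FulB S c k be w u Λ e' lam K₀ e₀ ρ₀ π₁ → φ' ≤ φ → φ ≤ φ₂ * u → π₁ ≤ sn (k + 1) w - φ →
    |x - (w + u)| ≤ φ₂ * u → ∀ E : ℝ, Bas S (fun J F A =>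
    ∀ Hb Hw H : LnT F → ℕ → MvPolynomial (Option (Fin m)) ℝ,
      NEv F c k D sn b w φ' φ E K₀ e₀ ρ₀ A Hb Hw H →
      FdE F c k D sn w u T δ₂ (two k 1 (be / al)) H A → NdE F c k D sn al be w u φ δ₂ x H A →
      ∀ l, k ≤ l → l ≤ k + 1 → ∀ N' : ℕ, (N' : ℝ) ≤ (sn l w + two k 1 (be / al) l * u) * J →
        CH (Pool.Agent.H49.Ent.cond F.p A True)
          (Pool.AVG57.cod F ⌊w * J⌋₊ (fun s' => H s' l) (c l) N' 0 (D + 1))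
          (fun ω => (nrJ F c k sn w u φ H ω, (cR F A x ω, F.W ω))) ≤ ε * u * J)

/-- **(NI)** The record near `w + u` does not see more of the two alive jets than the near path and
the record of `w₁`. -/
def NiStmt : Prop := ∀ (k D : ℕ) (al be ε : ℝ), 1 ≤ k → 1 ≤ be → be < al → 0 < ε →
  ∃ δ₂ : ℝ, 0 < δ₂ ∧ ∀ T : ℝ, 1 ≤ T → ∃ φ₂ Λ₀ : ℝ, 0 < φ₂ ∧
  ∀ {m : ℕ} {S : PCl m} {c : ℕ → Fin m} {sn sp : ℕ → ℝ → ℝ} {G : Set ℝ}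
    {h b o w u Λ φ' e' : ℝ} {lam : ℝ → ℝ}, XBox S c k sn sp G al be h b o w u Λ φ' e' lam →
    Λ₀ ≤ Λ → 0 ≤ e' → e' ≤ φ₂ → ∀ {K₀ : ℕ} {e₀ ρ₀ φ x : ℝ} {w₁ : ℚ}, φ' ≤ φ → φ ≤ φ₂ * u →
    |x - (w + u)| ≤ φ₂ * u → w ≤ w₁ → (w₁ : ℝ) ≤ w + φ' → ∀ E : ℝ, Bas S (fun J F A =>
    ∀ Hb Hw H : LnT F → ℕ → MvPolynomial (Option (Fin m)) ℝ,
      NEv F c k D sn b w φ' φ E K₀ e₀ ρ₀ A Hb Hw H →
      FdE F c k D sn w u T δ₂ (two k 1 (be / al)) H A →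
      ∀ i₁ i₂ : ℕ, 1 ≤ i₁ → i₁ ≤ D + 1 → 1 ≤ i₂ → i₂ ≤ D + 1 → ∀ N₁ N₂ : ℝ,
      N₁ ≤ sn k w + u - i₁ * w → N₂ ≤ sn (k + 1) w + be / al * u - i₂ * w →
      CH (Pool.Agent.H49.Ent.cond F.p A True)
        (fun ω => (tj F c w H k i₁ N₁ ω, tj F c w H (k + 1) i₂ N₂ ω))
        (fun ω => (nrJ F c k sn w u φ H ω, (cR F A w₁ ω, F.W ω))) ≤
      CH (Pool.Agent.H49.Ent.cond F.p A True)
        (fun ω => (tj F c w H k i₁ N₁ ω, tj F c w H (k + 1) i₂ N₂ ω))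
        (fun ω => (nrJ F c k sn w u φ H ω, (cR F A x ω, F.W ω))) + ε * u * J)

/-- **(NC)** The own jets of the slope-one places over the charts of `w` from the near path. -/
def NcStmt : Prop := ∀ (k D n : ℕ) (ε : ℝ), 0 < ε → ∃ φ₂ Λ₀ : ℝ, 0 < φ₂ ∧
  ∀ {m : ℕ} {S : PCl m} {c : ℕ → Fin m} {sn sp : ℕ → ℝ → ℝ} {G : Set ℝ}
    {al be h b o w u Λ φ' e' : ℝ} {lam : ℝ → ℝ}, XBox S c k sn sp G al be h b o w u Λ φ' e' lam →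
    Λ₀ ≤ Λ → ∀ {K₀ : ℕ} {e₀ ρ₀ φ x : ℝ}, φ' ≤ φ → φ ≤ φ₂ * u → w ≤ x → x ≤ 1 →
    ∀ E : ℝ, Bas S (fun J F A =>
    ∀ Hb Hw H : LnT F → ℕ → MvPolynomial (Option (Fin m)) ℝ,
      NEv F c k D sn b w φ' φ E K₀ e₀ ρ₀ A Hb Hw H → ∀ l < k, ∀ j ≤ n,
      CH (Pool.Agent.H49.Ent.cond F.p A True) (tj F c w Hw l j (sn l w + u - j * w))
        (fun ω => (nrJ F c k sn w u φ H ω, (cR F A x ω, F.W ω))) ≤ ε * u * J)

/-- **(NK)** The near path from the own jets of the slope-one places over the charts of `w`. -/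
def NkStmt : Prop := ∀ (k D : ℕ) (ε : ℝ), 0 < ε → ∃ φ₂ Λ₀ : ℝ, 0 < φ₂ ∧
  ∀ {m : ℕ} {S : PCl m} {c : ℕ → Fin m} {sn sp : ℕ → ℝ → ℝ} {G : Set ℝ}
    {al be h b o w u Λ φ' e' : ℝ} {lam : ℝ → ℝ}, XBox S c k sn sp G al be h b o w u Λ φ' e' lam →
    Λ₀ ≤ Λ → ∀ {K₀ : ℕ} {e₀ ρ₀ φ x : ℝ}, φ' ≤ φ → φ ≤ φ₂ * u → w ≤ x → x ≤ 1 →
    ∀ E : ℝ, Bas S (fun J F A =>
    ∀ Hb Hw H : LnT F → ℕ → MvPolynomial (Option (Fin m)) ℝ,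
      NEv F c k D sn b w φ' φ E K₀ e₀ ρ₀ A Hb Hw H →
      CH (Pool.Agent.H49.Ent.cond F.p A True) (nrJ F c k sn w u φ H)
        (fun ω => ((fun (l : Fin k) (j : Fin 2) => tj F c w Hw l j (sn l w + u - (j : ℕ) * w) ω),
          (cR F A x ω, F.W ω))) ≤ ε * u * J)

/-- **(NR)** The row of the steep place given the last place: `t₁`, `t₂` windows behind `w`. -/
def NrStmt : Prop := ∀ (k D : ℕ) (al be h μ ε π₀ : ℝ), 1 ≤ be → be < al → 0 < h → h ≤ 1 →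
  0 < μ → 0 < ε → 0 < π₀ → ∃ φ₂ Λ₀ : ℝ, 0 < φ₂ ∧
  ∀ {m : ℕ} {S : PCl m} {c : ℕ → Fin m} {sn sp : ℕ → ℝ → ℝ} {G : Set ℝ}
    {b o w u Λ φ' e' : ℝ} {lam : ℝ → ℝ}, XBox S c k sn sp G al be h b o w u Λ φ' e' lam →
    Λ₀ ≤ Λ → 0 ≤ e' → e' ≤ φ₂ → ∀ {K₀ : ℕ} {e₀ ρ₀ π₁ φ t₁ t₂ : ℝ} {w₁ : ℚ},
    FulB S c k be w u Λ e' lam K₀ e₀ ρ₀ π₁ → φ' ≤ φ → φ ≤ φ₂ * u → π₁ ≤ sn (k + 1) w - φ →
    w ≤ w₁ → al * (w₁ - w) ≤ φ' → 0 ≤ t₁ → t₁ + μ * u ≤ t₂ → al * t₂ ≤ u →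
    ∀ E : ℝ, Bas S (fun J F A =>
    ∀ Hb Hw H : LnT F → ℕ → MvPolynomial (Option (Fin m)) ℝ,
      NEv F c k D sn b w φ' φ E K₀ e₀ ρ₀ A Hb Hw H →
      ∀ B : F.Ω → Prop, Sub B A → π₀ * Pe F.p A ≤ Pe F.p B →
      CH (Pool.Agent.H49.Ent.cond F.p B True) (tj F c w H k 0 (sn k w + al * t₂))
        (fun ω => (tj F c w H k 0 (sn k w + al * t₁) ω,
          (tj F c w H (k + 1) 0 (sn (k + 1) w + be * t₂) ω,
          ((fun l : Fin k => tj F c w Hw l 0 (sn l w + u) ω), (cR F A w₁ ω, F.W ω))))) ≤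
        ((al - h * be) * (t₂ - t₁) * Real.log 2 + ε * u) * J)

/-- **(NQ)** The row of the last place given the steep place. -/
def NqStmt : Prop := ∀ (k D : ℕ) (al be h μ ε π₀ : ℝ), 1 ≤ be → be < al → 0 < h → h ≤ 1 →
  0 < μ → 0 < ε → 0 < π₀ → ∃ φ₂ Λ₀ : ℝ, 0 < φ₂ ∧
  ∀ {m : ℕ} {S : PCl m} {c : ℕ → Fin m} {sn sp : ℕ → ℝ → ℝ} {G : Set ℝ}
    {b o w u Λ φ' e' : ℝ} {lam : ℝ → ℝ}, XBox S c k sn sp G al be h b o w u Λ φ' e' lam →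
    Λ₀ ≤ Λ → ∀ {K₀ : ℕ} {e₀ ρ₀ φ t₁ t₂ : ℝ} {w₁ : ℚ}, φ' ≤ φ → φ ≤ φ₂ * u →
    w ≤ w₁ → al * (w₁ - w) ≤ φ' → 0 ≤ t₁ → t₁ + μ * u ≤ t₂ → al * t₂ ≤ u →
    ∀ E : ℝ, Bas S (fun J F A =>
    ∀ Hb Hw H : LnT F → ℕ → MvPolynomial (Option (Fin m)) ℝ,
      NEv F c k D sn b w φ' φ E K₀ e₀ ρ₀ A Hb Hw H →
      ∀ B : F.Ω → Prop, Sub B A → π₀ * Pe F.p A ≤ Pe F.p B →
      CH (Pool.Agent.H49.Ent.cond F.p B True)
        (tj F c w H (k + 1) 0 (sn (k + 1) w + be * t₂))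
        (fun ω => (tj F c w H (k + 1) 0 (sn (k + 1) w + be * t₁) ω,
          (tj F c w H k 0 (sn k w + al * t₂) ω,
          ((fun l : Fin k => tj F c w Hw l 0 (sn l w + u) ω), (cR F A w₁ ω, F.W ω))))) ≤
        ((be - h * be) * (t₂ - t₁) * Real.log 2 + ε * u) * J)

end Pool.NA98
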