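import Pool.Agent.H98.NA.S
import Pool.Agent.H48.VA.Cd

/-!
# Jets and coefficients of own paths on one event

`der_small`: derivatives from coefficients. `jets_few`: the jets of a path are few bits given its
coefficients. `tj_coe`: the same for a label. `coe_tj`: the coefficients from the jets. `tj_zero`: the
jets above the degree. `mi_fun`: the mutual information of a function.
-/

set_option autoImplicit false

namespace Pool.NA98

open Finset Real MvPolynomial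
open Pool.Agent.H49.Ent Pool.Agent.H32.Dense
open Pool.STK hiding pr2
open Pool.KA Pool.KSAT Pool.K2S Pool.PB Pool.S6C
open Pool.GEN Pool.LA91 Pool.OWN68 Pool.PN18 Pool.LPK12

/-- **Derivatives from coefficients.** -/
theorem der_small {D j : ℕ} {E : Polynomial ℝ} {x : ℝ} (hE : E.natDegree ≤ D) (hx : |x| ≤ 1)
    (hc : ∀ b ≤ D, |E.coeff b| ≤ 1) :
    |(Polynomial.derivative^[j] E).eval x| ≤ ((D + 1 : ℕ) : ℝ) * (D.factorial : ℝ) := by
  have h1 : (Polynomial.derivative^[j] E).natDegree < D + 1 :=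
    lt_of_le_of_lt ((Polynomial.natDegree_iterate_derivative E j).trans (Nat.sub_le _ _))
      (Nat.lt_succ_of_le hE)
  rw [Polynomial.eval_eq_sum_range' h1]
  refine (Finset.abs_sum_le_sum_abs _ _).trans ?_
  refine (Finset.sum_le_card_nsmul (range (D + 1)) _ ((D.factorial : ℝ)) fun b hb => ?_).trans
    (le_of_eq ?_)
  · rw [Polynomial.coeff_iterate_derivative, nsmul_eq_mul, abs_mul, abs_mul, abs_pow]
    have h3 : |x| ^ b ≤ 1 := pow_le_one₀ (abs_nonneg _) hx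
    rw [Nat.abs_cast]
    rcases Nat.lt_or_ge D (b + j) with h4 | h4
    · rw [Polynomial.coeff_eq_zero_of_natDegree_lt (lt_of_le_of_lt hE h4), abs_zero, mul_zero,
        zero_mul]
      exact Nat.cast_nonneg _
    · have h5 := hc (b + j) h4
      have h6 : ((b + j).descFactorial j : ℝ) ≤ (D.factorial : ℝ) := by
        have : (b + j).descFactorial j ≤ D.factorial := by
          refine le_trans (Nat.le_of_dvd (Nat.factorial_pos _) ?_) (Nat.factorial_le h4)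
          rw [Nat.descFactorial_eq_div (Nat.le_add_left j b)]
          exact Nat.div_dvd_of_dvd (Nat.factorial_dvd_factorial (by omega))
        exact_mod_cast this
      have h7 : (0 : ℝ) ≤ (b + j).descFactorial j := Nat.cast_nonneg _
      calc _ ≤ ((D.factorial : ℝ) * 1) * 1 := mul_le_mul
            (mul_le_mul h6 h5 (abs_nonneg _) (Nat.cast_nonneg _)) h3 (by positivity)
            (by positivity)
        _ = _ := by ring
  · rw [card_range, nsmul_eq_mul]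

/-- **The jets of a path** from its coefficients. -/
theorem jets_few (D : ℕ) : ∃ C : ℝ, 0 ≤ C ∧ ∀ {m J : ℕ} (F : Fam m J) {q : F.Ω → ℝ} (_ : IsLaw q)
    (R : LnT F → Polynomial ℝ) (w : ℕ) {Γ : Type} (Y : F.Ω → Γ) {e : ℝ},
    (∀ y, (R y).natDegree ≤ D) →
    (∀ ω ω', 0 < q ω → 0 < q ω' → Y ω = Y ω' → F.T ω = F.T ω') →
    (∀ j ≤ D, CH q (fun ω => ⌊(R (slam F w ω)).coeff j⌋) Y ≤ e) →
    ∀ j, CH q (fun ω => ⌊pj F R w j ω⌋) Y ≤ (D + 1) * e + C := by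
  refine ⟨Real.log (2 * ((⌈((D + 1 : ℕ) : ℝ) * (D.factorial : ℝ)⌉₊ + 1 : ℕ) : ℝ) + 1), ?_, ?_⟩
  · refine Real.log_nonneg ?_
    have : (0 : ℝ) ≤ ((⌈((D + 1 : ℕ) : ℝ) * (D.factorial : ℝ)⌉₊ + 1 : ℕ) : ℝ) := Nat.cast_nonneg _
    linarith
  intro m J F q hq R w Γ Y e hdeg hY hcoe j
  have h0 := hq.nonneg
  obtain ⟨V, hV⟩ : ∃ V : F.Ω → Fin (D + 1) → ℤ, V = fun ω (j : Fin (D + 1)) =>
    ⌊(R (slam F w ω)).coeff j⌋ := ⟨_, rfl⟩
  have hVc : CH q V Y ≤ (D + 1) * e := by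
    refine (CH_pis h0 V Y).trans ?_
    have h1 : ∀ j ∈ (univ : Finset (Fin (D + 1))), CH q (fun ω => V ω j) Y ≤ e := by
      intro j _
      rw [hV]
      exact hcoe j (by omega)
    refine (Finset.sum_le_sum h1).trans (le_of_eq ?_)
    rw [Finset.sum_const, Finset.card_univ, Fintype.card_fin, nsmul_eq_mul]
    push_cast
    ring
  have s1 := CH_le_add h0 (fun ω => ⌊pj F R w j ω⌋) V Y
  have s2 : CH q (fun ω => ⌊pj F R w j ω⌋) (fun ω => (V ω, Y ω)) ≤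
      Real.log (2 * ((⌈((D + 1 : ℕ) : ℝ) * (D.factorial : ℝ)⌉₊ + 1 : ℕ) : ℝ) + 1) := by
    refine CH_pair hq _ _ fun ω ω' hω hω' e1 => ?_
    simp only [Prod.mk.injEq] at e1
    obtain ⟨e1, e2⟩ := e1
    have hTT := hY ω ω' hω hω' e2
    have hu : uw F w ω' = uw F w ω := by
      unfold uw tw
      rw [hTT]
    have hEd : (R (slam F w ω) - R (slam F w ω')).natDegree ≤ D :=
      (Polynomial.natDegree_sub_le _ _).trans (max_le (hdeg _) (hdeg _))
    have h3 := der_small (j := j) hEd (uw_abs F w ω) fun b hb => by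
      rw [Polynomial.coeff_sub]
      rw [hV] at e1
      exact (Int.abs_sub_lt_one_of_floor_eq_floor (congrFun e1 (⟨b, by omega⟩ : Fin (D + 1)))).le
    have e4 : (Polynomial.derivative^[j] (R (slam F w ω) - R (slam F w ω'))).eval
        (uw F w ω) = pj F R w j ω - pj F R w j ω' := by
      rw [Polynomial.iterate_derivative_sub, Polynomial.eval_sub]
      unfold pj
      rw [hu]
    rw [e4] at h3
    exact floor_sub_le (h3.trans (Nat.le_ceil _))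
  linarith

/-- The degree of the own path. -/
theorem deg_jR {m J : ℕ} {F : Fam m J} {W : ℕ} {σ : ℝ} {κ : Fin m} {V : Type} {z' : LnT F → V}
    {G : V → MvPolynomial (Option (Fin m)) ℝ} {D : ℕ} (hD : 1 ≤ D)
    (hdeg : ∀ v, (G v).totalDegree ≤ D) (y : LnT F) : (jR F W σ κ z' G y).natDegree ≤ D :=
  natDegree_jR (fun v => (MvPolynomial.totalDegree_sub _ _).trans (max_le
    ((totalDegree_X _).le.trans hD) (hdeg v))) _

/-- The jets above the degree vanish. -/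
theorem ojet_zero {m J : ℕ} {F : Fam m J} {W : ℕ} (hWJ : W ≤ J) {κ : Fin m} {V : Type}
    {z' : LnT F → V} {G : V → MvPolynomial (Option (Fin m)) ℝ} {D : ℕ} (hD : 1 ≤ D)
    (hdeg : ∀ v, (G v).totalDegree ≤ D) {j : ℕ} (hj : D < j) (ω : F.Ω) :
    ojet F κ j (G (z' (slam F W ω))) ω = 0 := by
  have h1 := jR_jet (σ := 1) (κ := κ) (zl := z') (G := G) hWJ ω j
  rw [Polynomial.iterate_derivative_eq_zero (lt_of_le_of_lt (deg_jR hD hdeg _) hj),
    Polynomial.eval_zero] at h1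
  have h2 : (0 : ℝ) < 1 * (1 / 2 ^ (W + 1)) ^ j := by positivity
  exact (mul_eq_zero.1 h1.symm).resolve_left h2.ne'

/-- **The jets of a label** from the coefficients of its path in a window. -/
theorem oj_coe (D : ℕ) (hD : 1 ≤ D) : ∃ C : ℝ, 0 ≤ C ∧ ∀ {m J : ℕ} (F : Fam m J) {q : F.Ω → ℝ}
    (_ : IsLaw q) {w s e : ℝ} (_ : 0 ≤ w) (_ : ⌊w * J⌋₊ ≤ J) {κ : Fin m} {V Γ : Type}
    {z' : LnT F → V} {G : V → MvPolynomial (Option (Fin m)) ℝ} (Y : F.Ω → Γ),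
    (∀ v, (G v).totalDegree ≤ D) →
    (∀ ω ω', 0 < q ω → 0 < q ω' → Y ω = Y ω' → F.T ω = F.T ω') →
    (∀ j ≤ D, CH q (fun ω => ⌊jr F ⌊w * J⌋₊ (2 ^ (s * J)) κ z' G j (slam F ⌊w * J⌋₊ ω)⌋) Y ≤ e) →
    ∀ j ≤ D, CH q (oj F κ z' G ⌊w * J⌋₊ (s - j * w) j) Y ≤ (D + 1) * e + C := by
  obtain ⟨C, hC, H⟩ := jets_few D
  refine ⟨C + LK (2 ^ D), add_nonneg hC (LK_nonneg _), ?_⟩
  intro m J F q hq w s e hw hWJ κ V Γ z' G Y hdeg hY hc j hj
  have h1 := H F hq (jR F ⌊w * J⌋₊ (2 ^ (s * J)) κ z' G) ⌊w * J⌋₊ Y (deg_jR hD hdeg) hY hc j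
  have h2 := CH_le_add hq.nonneg (oj F κ z' G ⌊w * J⌋₊ (s - j * w) j)
    (fun ω => ⌊pj F (jR F ⌊w * J⌋₊ (2 ^ (s * J)) κ z' G) ⌊w * J⌋₊ j ω⌋) Y
  have h3 := (oj_conv (s := s) hw hWJ (κ := κ) (z' := z') (G := G) hq Y hj).2
  linarith

/-- **The coefficients of the path of a label in a window** from the jets. -/
theorem coe_oj (D : ℕ) (hD : 1 ≤ D) : ∃ C : ℝ, 0 ≤ C ∧ ∀ {m J : ℕ} (F : Fam m J) {q : F.Ω → ℝ}
    (_ : IsLaw q) {w s e : ℝ} (_ : 0 ≤ w) (_ : ⌊w * J⌋₊ ≤ J) {κ : Fin m} {V Γ : Type}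
    {z' : LnT F → V} {G : V → MvPolynomial (Option (Fin m)) ℝ} (Y : F.Ω → Γ) {N : ℕ → ℝ},
    (∀ v, (G v).totalDegree ≤ D) →
    (∀ ω ω', 0 < q ω → 0 < q ω' → Y ω = Y ω' → F.T ω = F.T ω') →
    (∀ j ≤ D, s - j * w ≤ N j) →
    (∀ j ≤ D, CH q (fun ω => ⌊(2 : ℝ) ^ (N j * J) * ojet F κ j (G (z' (slam F ⌊w * J⌋₊ ω))) ω⌋) Y ≤
      e) →
    ∀ j, CH q (fun ω => ⌊jr F ⌊w * J⌋₊ (2 ^ (s * J)) κ z' G j (slam F ⌊w * J⌋₊ ω)⌋) Y ≤
      (D + 1) * e + C := by
  obtain ⟨C, hC, H⟩ := coe_few D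
  refine ⟨C + (D + 1) * Real.log 5, by positivity, ?_⟩
  intro m J F q hq w s e hw hWJ κ V Γ z' G Y N hdeg hY hN hc j
  have h1 := H F hq (jR F ⌊w * J⌋₊ (2 ^ (s * J)) κ z' G) ⌊w * J⌋₊ Y (e := e + Real.log 5) (x := 0)
    le_rfl (deg_jR hD hdeg) hY (fun j hj => by
      have h2 := pj_few (F := F) (s := s) (N := N j) (x := 0) hw hWJ (κ := κ) (z' := z')
        (G := G) hq Y j (by linarith [hN j hj])
      rw [zero_mul] at h2
      refine h2.trans ?_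
      linarith [hc j hj]) j
  refine h1.trans ?_
  linarith

/-- **The mutual information of a function.** -/
theorem mi_fun {Ω α β γ δ : Type} [Fintype Ω] {p : Ω → ℝ} (h0 : ∀ ω, 0 ≤ p ω) {X : Ω → α}
    {X' : Ω → β} (Z : Ω → γ) (Z' : Ω → δ) (hX : Det p X X') (hZ : Det p Z' Z) :
    CH p X' Z ≤ CH p X' Z' + (CH p X Z - CH p X Z') := by
  have h1 := CH_chain h0 X X' Z
  have h2 := CH_chain h0 X X' Z'
  have h3 : ∀ {ε : Type} (W : Ω → ε), CH p (fun ω => (X ω, X' ω)) W = CH p X W := fun W =>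
    CH_congr h0 (fun ω ν a b e => (Prod.ext_iff.mp (Prod.ext_iff.mp e).1).1) (fun ω ν a b e =>
      Prod.ext (Prod.ext_iff.mp e).1 (hX ω ν a b (Prod.ext_iff.mp e).1))
      (fun _ _ _ _ e => e) (fun _ _ _ _ e => e)
  rw [h3] at h1 h2
  have h4 : CH p X (fun ω => (X' ω, Z' ω)) ≤ CH p X (fun ω => (X' ω, Z ω)) :=
    CH_mono_cond h0 fun ω ν a b e => Prod.ext (Prod.ext_iff.mp e).1
      (hZ ω ν a b (Prod.ext_iff.mp e).2)
  linarith

end Pool.NA98
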