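import Pool.Agent.H98.NA.X1

/-!
# The two rows on one event

`nev_tg`, `nev_v`: the digits of one event are the quantities of the class theorems. `nev_ful`: the
digits of the last place are full. `nr : NrStmt`, `nq : NqStmt`: the rows.
-/

set_option autoImplicit false

namespace Pool.NA98

open Finset Real MvPolynomial
open Pool.Agent.H49.Ent Pool.Agent.H32.Dense
open Pool.STK hiding pr2
open Pool.KA Pool.KSAT Pool.K2S Pool.PB Pool.S6C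
open Pool.GEN Pool.CHT Pool.CHX Pool.ISO Pool.LA91 Pool.AVG71 Pool.AVG5 Pool.D2F2 Pool.AVG57
open Pool.RCD Pool.AVG96 Pool.OWN68 Pool.V0F Pool.VA83 Pool.XR71 Pool.V0T Pool.ALT
open Pool.AJW (CfB)
open Pool.GRD (LbP)
open Pool.UNJ (ceI)
open Pool.KVA (MI)
open Pool.VG83 (cl_cR det_cR2)

/-- **The digits of the targets** are the quantities of the class theorems. -/
theorem nev_tg (m D k : ℕ) (P : ℕ → ℝ) {w E : ℝ} (hw0 : 0 ≤ w) (hw1 : w ≤ 1) :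
    ∃ M J₁ : ℕ, ∀ K ≥ M, ∀ J ≥ J₁, ∀ {F : Fam m J} {c : ℕ → Fin m} {b φ' φ e₀ ρ₀ : ℝ} {K₀ : ℕ}
      {sn : ℕ → ℝ → ℝ} {A : F.Ω → Prop} {Hb Hw H : LnT F → ℕ → MvPolynomial (Option (Fin m)) ℝ},
      NEv F c k D sn b w φ' φ E K₀ e₀ ρ₀ A Hb Hw H → ∀ e : ℝ, 0 ≤ e →
      (qTg m c k (1 + 1) w (prx k sn w φ) P).P K e J F A
        (fun ω (t : Fin (1 + 1)) => tj F c w H (k + (t : ℕ)) 0 (P t) ω) := by
  obtain ⟨M, J₁, hM⟩ := qj_win m D 0 (N := P 0) (w := w) (E := E) hw0 hw1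
  obtain ⟨M', J₁', hM'⟩ := qj_win m D 0 (N := P 1) (w := w) (E := E) hw0 hw1
  refine ⟨M + M', J₁ + J₁', fun K hK J hJ F c b φ' φ e₀ ρ₀ K₀ sn A Hb Hw H X e he => ?_⟩
  have hJ0 : (0 : ℝ) ≤ J := Nat.cast_nonneg J
  intro t
  have ht : (t : ℕ) = 0 ∨ (t : ℕ) = 1 := by omega
  show (qJet m ((range (k + (t : ℕ))).image c) (c (k + (t : ℕ))) 0 w (prx k sn w φ t)
      (P t)).P K e J F A (fun ω => tj F c w H (k + (t : ℕ)) 0 (P t) ω)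
  rcases ht with ht | ht
  · rw [ht]
    obtain ⟨V, z, z', g, h1, h2⟩ := X.lt (k + 0) (by omega) (by omega)
    have h3 := hM K (by omega) J (by omega) F _ (c (k + 0)) A V z z' g _
      (sn (k + 0) w - φ) e h1 (cfb_of (X.cw (k + 0) (by omega) (by omega)) h2)
      (Nat.floor_le_floor (mul_le_mul_of_nonneg_right (by linarith) hJ0))
    have e1 : (fun ω => tj F c w H (k + 0) 0 (P 0) ω) = fun ω =>
        ⌊(2 : ℝ) ^ (P 0 * J) * ojet F (c (k + 0)) 0 (g (z' (slam F ⌊w * J⌋₊ ω))) ω⌋ := by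
      funext ω
      unfold tj
      rw [h2]
    rw [e1]
    exact h3
  · rw [ht]
    obtain ⟨V, z, z', g, h1, h2⟩ := X.lt (k + 1) (by omega) (by omega)
    have h3 := hM' K (by omega) J (by omega) F _ (c (k + 1)) A V z z' g _
      (sn (k + 1) w - φ) e h1 (cfb_of (X.cw (k + 1) (by omega) (by omega)) h2)
      (Nat.floor_le_floor (mul_le_mul_of_nonneg_right (by linarith) hJ0))
    have e1 : (fun ω => tj F c w H (k + 1) 0 (P 1) ω) = fun ω =>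
        ⌊(2 : ℝ) ^ (P 1 * J) * ojet F (c (k + 1)) 0 (g (z' (slam F ⌊w * J⌋₊ ω))) ω⌋ := by
      funext ω
      unfold tj
      rw [h2]
    rw [e1]
    exact h3

/-- **The heights of the slope-one places** over the charts of `w`. -/
theorem nev_v (m D k : ℕ) (n : ℕ → ℝ) {w E : ℝ} (hw0 : 0 ≤ w) (hw1 : w ≤ 1) :
    ∃ M J₁ : ℕ, ∀ K ≥ M, ∀ J ≥ J₁, ∀ {F : Fam m J} {c : ℕ → Fin m} {b φ' φ e₀ ρ₀ : ℝ} {K₀ : ℕ}
      {sn : ℕ → ℝ → ℝ} {A : F.Ω → Prop} {Hb Hw H : LnT F → ℕ → MvPolynomial (Option (Fin m)) ℝ},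
      NEv F c k D sn b w φ' φ E K₀ e₀ ρ₀ A Hb Hw H → φ' ≤ φ → ∀ e : ℝ, 0 ≤ e →
      (qJets m c 0 k 0 (fun _ _ => w) (fun l _ => sn l w - φ) (fun l _ => n l)).P K e J F A
        (jh F c k ⌊w * J⌋₊ Hw n) := by
  obtain ⟨M, J₁, hM⟩ := qj_fam m D 0 k n (E := E) hw0 hw1
  refine ⟨M, J₁, fun K hK J hJ F c b φ' φ e₀ ρ₀ K₀ sn A Hb Hw H X hφ e he => ⟨?_, ?_⟩⟩
  · intro i _ hi j' hj'
    obtain rfl : j' = 0 := by omega
    obtain ⟨V, z, z', G, h1, h2⟩ := X.vw.lb i (by omega)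
    have h3 := hM K hK J hJ i hi F _ (c i) A V z z' G _ (sn i w - φ) e h1
      (cfb_of (X.vw.cf i (by omega)) h2) (Nat.floor_le_floor (mul_le_mul_of_nonneg_right
        (by linarith) (Nat.cast_nonneg J)))
    have e1 : (fun ω => jh F c k ⌊w * J⌋₊ Hw n ω i 0) = fun ω =>
        ⌊(2 : ℝ) ^ (n i * J) * ojet F (c i) 0 (G (z' (slam F ⌊w * J⌋₊ ω))) ω⌋ := by
      funext ω
      unfold jh
      rw [if_pos ⟨hi, rfl⟩, h2]
    rw [e1]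
    exact h3
  · intro ω _ i j' h
    unfold jh
    rw [if_neg fun hh => h ⟨Nat.zero_le _, hh.1, by omega⟩]

section

variable {m J : ℕ} {F : Fam m J} {c : ℕ → Fin m} {k D : ℕ} {sn : ℕ → ℝ → ℝ}
  {b w φ' φ E e₀ ρ₀ : ℝ} {K₀ : ℕ} {A B : F.Ω → Prop}
  {Hb Hw H : LnT F → ℕ → MvPolynomial (Option (Fin m)) ℝ} {p : F.Ω → ℝ}

/-- Digits of a jet. -/
theorem ch_tj (hp : IsLaw p) {l i : ℕ} {M M' d : ℝ} {β : Type} {Z : F.Ω → β}
    (hZ : Det p Z (tj F c w H l i M)) (hd : (M' - M) * J ≤ d) (hd0 : 0 ≤ d) :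
    CH p (tj F c w H l i M') Z ≤ d * Real.log 2 + Real.log 5 :=
  CH_dg hp (a := M * J) (b := M' * J) (x := fun ω => ojet F (c l) i (H (slam F ⌊w * J⌋₊ ω) l) ω)
    (fun _ _ => rfl) hZ (by linarith) hd0

/-- **The number of the last place**, on parts. -/
theorem nev_ful (X : NEv F c k D sn b w φ' φ E K₀ e₀ ρ₀ A Hb Hw H) {v π₁ : ℝ} {a : ℚ}
    {s₁ s₂ : ℝ} (hva : v ≤ a) (ha1 : a ≤ (1 : ℚ)) (hπ₁ : π₁ ≤ sn (k + 1) w - φ) (hB : Sub B A)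
    (hp0 : ∀ ω, 0 ≤ p ω) (hpB : ∀ ω, 0 < p ω → B ω) {R : ℝ}
    (hful : ∀ (V : Type) (z : PtT F → V) (z' : LnT F → V)
      (g : V → MvPolynomial (Option (Fin m)) ℝ),
      LbOK F ((range (k + 1)).image c) (c (k + 1)) K₀ ⌊e₀ * J⌋₊ J ⌊w * J⌋₊ ⌊ρ₀ * J⌋₊ ⌊π₁ * J⌋₊ B
        z z' g →
      ∀ (C : Type) (zc : PtT F → C) (zc' : LnT F → C),
      (∀ ω, B ω → zc (ptr F J ω) = zc' (slam F ⌊(a : ℝ) * J⌋₊ ω)) →
      R ≤ CH p (xa F (c (k + 1)) z' ⌊w * J⌋₊ g s₂)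
          (fun ω => (xa F (c (k + 1)) z' ⌊w * J⌋₊ g s₁ ω, (zc' (slam F ⌊(a : ℝ) * J⌋₊ ω),
            (ceI ((range k).image c) (fun _ => J) (F.x ω), F.W ω))))) :
    R ≤ CH p (tj F c w H (k + 1) 0 s₂)
      (fun ω => ((fun l : Fin k => F.X J ω (c l)), (cR F B v ω, F.W ω))) := by
  obtain ⟨V, z, z', g, h1, h2⟩ := X.ln
  have hJ0 : (0 : ℝ) ≤ J := Nat.cast_nonneg J
  have h1' := (h1.sub hB).mono (Finset.Subset.refl _) le_rfl le_rfl le_rfl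
    (Nat.floor_le_floor (mul_le_mul_of_nonneg_right hπ₁ hJ0))
  obtain ⟨⟨f₁, hf₁⟩, ⟨f₂, hf₂⟩⟩ := cl_cR F B v
  obtain ⟨χ, hχ⟩ := vg_mono hva (by exact_mod_cast ha1) J F
  have h3 := hful V z z' g h1' _ f₁ (fun s => f₂ (χ s)) (fun ω hω => by
    rw [← hf₁ ω hω, hf₂ ω hω, hχ ω]
    rfl)
  refine h3.trans ?_
  have e1 : xa F (c (k + 1)) z' ⌊w * J⌋₊ g s₂ = tj F c w H (k + 1) 0 s₂ := by
    funext ω
    show ⌊(2 : ℝ) ^ (s₂ * J) * ojet F (c (k + 1)) 0 (g (z' (slam F ⌊w * J⌋₊ ω))) ω⌋ =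
      ⌊(2 : ℝ) ^ (s₂ * J) * ojet F (c (k + 1)) 0 (H (slam F ⌊w * J⌋₊ ω) (k + 1)) ω⌋
    rw [h2]
  rw [e1]
  refine CH_mono_cond hp0 fun ω ν hω hν e => ?_
  simp only [Prod.mk.injEq] at e ⊢
  obtain ⟨-, e2, e3, e4⟩ := e
  refine ⟨funext fun l => tup_ceI e3 l.2, ?_, e4⟩
  rw [hf₂ ω (hpB ω hω), hf₂ ν (hpB ν hν), hχ ω, hχ ν]
  exact e2

/-- **The slope-one places** from a little fewer digits. -/
theorem ch_jw (hp : IsLaw p) {n n' : ℕ → ℝ} {d : ℝ} (hd : ∀ l < k, (n' l - n l) * J ≤ d)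
    (hd0 : 0 ≤ d) : CH p (jh F c k ⌊w * J⌋₊ Hw n') (fun ω (l : Fin k) => tj F c w Hw l 0 (n l) ω) ≤
      k * (d * Real.log 2 + Real.log 5) := by
  refine CH_jh hp (n := n) (n' := n') (d := d) hd hd0 _ fun ω ν _ _ e => ?_
  funext l j'
  unfold jh
  by_cases h : l < k ∧ j' = 0
  · rw [if_pos h, if_pos h]
    exact congrFun e ⟨l, h.1⟩
  · rw [if_neg h, if_neg h]

end

end Pool.NA98
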