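import Pool.Agent.H98.NA.A1
import Pool.Agent.H98.NA.X2

/-!
# The context of the engine on one event

`cds`: the codes of the slope-one places in the window `w₁`, a function of the line. `cds_few`: they
are few bits given the jets. `jts_cds`: the jets from the codes. `lab2`: the two labels as functions
of the line with its window `w₁`.
-/

set_option autoImplicit false

namespace Pool.NA98

open Finset Real MvPolynomial
open Pool.Agent.H49.Ent Pool.Agent.H32.Dense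
open Pool.STK hiding pr2
open Pool.KA Pool.KSAT Pool.K2S Pool.PB Pool.S6C
open Pool.GEN Pool.CHT Pool.CHX Pool.ISO Pool.LA91 Pool.AVG71 Pool.AVG5 Pool.D2F2 Pool.AVG57
open Pool.RCD Pool.AVG96 Pool.OWN68 Pool.V0F Pool.VA83 Pool.XR71 Pool.PN18 Pool.LPK12
open Pool.AJW (CfB)
open Pool.GRD (LbP)
open Pool.VG83 (cl_cR det_cR2)
open Pool.TW44 (LV)

variable {m J : ℕ}

/-- **The codes of the slope-one places** in the window `w₁`, over the charts of the window `w`. -/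
noncomputable def cds (F : Fam m J) (c : ℕ → Fin m) (k D : ℕ) (sn : ℕ → ℝ → ℝ) (w u w₁ : ℝ)
    (Hw : LnT F → ℕ → MvPolynomial (Option (Fin m)) ℝ) (s : LnT F) (l : Fin k) (j : Fin (D + 1)) :
    ℤ :=
  ⌊jr F ⌊w₁ * J⌋₊ (2 ^ ((sn l w + u) * J)) (c l) (fun s => upw ⌊w * J⌋₊ ⌊w₁ * J⌋₊ s)
    (fun s => Hw s l) j s⌋

section

variable {F : Fam m J} {c : ℕ → Fin m} {k D : ℕ} {sn : ℕ → ℝ → ℝ} {b w φ' φ E e₀ ρ₀ u w₁ : ℝ}
  {K₀ : ℕ} {A : F.Ω → Prop} {Hb Hw H : LnT F → ℕ → MvPolynomial (Option (Fin m)) ℝ}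
  {p : F.Ω → ℝ}

/-- The degree of the charts. -/
theorem NEv.degw (X : NEv F c k D sn b w φ' φ E K₀ e₀ ρ₀ A Hb Hw H) {l : ℕ} (hl : l < k + 1)
    (s : LnT F) : (Hw s l).totalDegree ≤ D := by
  obtain ⟨V, z, z', G, h1, h2⟩ := X.vw.lb l hl
  rw [← h2 s]
  exact h1.deg _

end

/-- **The codes are few bits** given the jets. -/
theorem cds_few (D : ℕ) (hD : 1 ≤ D) : ∃ C : ℝ, 0 ≤ C ∧ ∀ {m J : ℕ} {F : Fam m J} {p : F.Ω → ℝ}
    (_ : IsLaw p) {c : ℕ → Fin m} {k : ℕ} {sn : ℕ → ℝ → ℝ} {w u w₁ a : ℝ}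
    {Hw : LnT F → ℕ → MvPolynomial (Option (Fin m)) ℝ} {Γ : Type} (Y : F.Ω → Γ),
    0 ≤ w → w ≤ w₁ → ⌊w₁ * (J : ℝ)⌋₊ ≤ J → (∀ l < k, ∀ s, (Hw s l).totalDegree ≤ D) →
    (∀ ω ω', 0 < p ω → 0 < p ω' → Y ω = Y ω' → F.T ω = F.T ω') →
    (∀ l < k, ∀ j ≤ D, CH p (tj F c w Hw l j (sn l w + u - j * w)) Y ≤ a) →
    CH p (fun ω => cds F c k D sn w u w₁ Hw (slam F ⌊w₁ * J⌋₊ ω)) Y ≤
      k * ((D + 1) * ((D + 1) * a + C)) := by
  obtain ⟨C, hC, H⟩ := coe_oj D hD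
  refine ⟨C, hC, ?_⟩
  intro m J F p hp c k sn w u w₁ a Hw Γ Y hw hw1 hWJ hdeg hY hj
  have h0 := hp.nonneg
  have hJ0 : (0 : ℝ) ≤ J := Nat.cast_nonneg J
  have hWW : ⌊w * (J : ℝ)⌋₊ ≤ ⌊w₁ * (J : ℝ)⌋₊ :=
    Nat.floor_le_floor (mul_le_mul_of_nonneg_right hw1 hJ0)
  refine (CH_pis h0 _ Y).trans ?_
  have h1 : ∀ l ∈ (univ : Finset (Fin k)), CH p (fun ω => cds F c k D sn w u w₁ Hw
      (slam F ⌊w₁ * J⌋₊ ω) l) Y ≤ (D + 1) * ((D + 1) * a + C) := by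
    intro l _
    refine (CH_pis h0 _ Y).trans ?_
    have h2 : ∀ j ∈ (univ : Finset (Fin (D + 1))), CH p (fun ω => cds F c k D sn w u w₁ Hw
        (slam F ⌊w₁ * J⌋₊ ω) l j) Y ≤ (D + 1) * a + C := by
      intro j _
      refine H F hp (w := w₁) (s := sn l w + u) (e := a) (hw.trans hw1) hWJ (κ := c l)
        (z' := fun s => upw ⌊w * J⌋₊ ⌊w₁ * J⌋₊ s) (G := fun s => Hw s l) Y
        (N := fun j => sn l w + u - j * w) (fun s => hdeg l l.2 s) hY (fun j _ => ?_)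
        (fun j hj' => ?_) j
      · have : (j : ℝ) * w ≤ j * w₁ := mul_le_mul_of_nonneg_left hw1 (Nat.cast_nonneg j)
        linarith
      · refine le_trans (le_of_eq ?_) (hj l l.2 j hj')
        congr 1
        funext ω
        unfold tj
        rw [upw_slam F hWW hWJ ω]
    refine (Finset.sum_le_sum h2).trans (le_of_eq ?_)
    rw [Finset.sum_const, Finset.card_univ, Fintype.card_fin, nsmul_eq_mul]
    push_cast
    ring
  refine (Finset.sum_le_sum h1).trans (le_of_eq ?_)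
  rw [Finset.sum_const, Finset.card_univ, Fintype.card_fin, nsmul_eq_mul]

/-- **The jets from the codes.** -/
theorem jts_cds (D : ℕ) (hD : 1 ≤ D) : ∃ C : ℝ, 0 ≤ C ∧ ∀ {m J : ℕ} {F : Fam m J} {p : F.Ω → ℝ}
    (_ : IsLaw p) {c : ℕ → Fin m} {k : ℕ} {sn : ℕ → ℝ → ℝ} {w u w₁ d : ℝ}
    {Hw : LnT F → ℕ → MvPolynomial (Option (Fin m)) ℝ} {Γ : Type} (Y : F.Ω → Γ),
    0 ≤ w → w ≤ w₁ → ⌊w₁ * (J : ℝ)⌋₊ ≤ J → (∀ l < k, ∀ s, (Hw s l).totalDegree ≤ D) →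
    (∀ ω ω', 0 < p ω → 0 < p ω' → Y ω = Y ω' → F.T ω = F.T ω') →
    Det p Y (fun ω => cds F c k D sn w u w₁ Hw (slam F ⌊w₁ * J⌋₊ ω)) → w₁ - w ≤ d →
    ∀ l < k, ∀ j ≤ 1, CH p (tj F c w Hw l j (sn l w + u - j * w)) Y ≤ d * J + C := by
  obtain ⟨C, hC, H⟩ := oj_coe D hD
  refine ⟨C + Real.log 5, by positivity, ?_⟩
  intro m J F p hp c k sn w u w₁ d Hw Γ Y hw hw1 hWJ hdeg hY hdet hd l hl j hj
  have h0 := hp.nonneg
  have hJ0 : (0 : ℝ) ≤ J := Nat.cast_nonneg J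
  have hWW : ⌊w * (J : ℝ)⌋₊ ≤ ⌊w₁ * (J : ℝ)⌋₊ :=
    Nat.floor_le_floor (mul_le_mul_of_nonneg_right hw1 hJ0)
  have h1 := H F hp (w := w₁) (s := sn l w + u) (e := 0) (hw.trans hw1) hWJ (κ := c l)
    (z' := fun s => upw ⌊w * J⌋₊ ⌊w₁ * J⌋₊ s) (G := fun s => Hw s l) Y
    (fun s => hdeg l hl s) hY (fun j hj' => by
      refine le_of_eq (CH_eq_zero h0 fun ω ν hω hν e => ?_)
      exact congrFun (congrFun (hdet ω ν hω hν e) ⟨l, hl⟩) (⟨j, by omega⟩ : Fin (D + 1))) j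
    (by omega)
  rw [mul_zero, zero_add] at h1
  have e1 : oj F (c l) (fun s => upw ⌊w * J⌋₊ ⌊w₁ * J⌋₊ s) (fun s => Hw s l) ⌊w₁ * J⌋₊
      (sn l w + u - j * w₁) j = tj F c w Hw l j (sn l w + u - j * w₁) := by
    funext ω
    unfold oj tj
    dsimp only
    rw [upw_slam F hWW hWJ ω]
  rw [e1] at h1
  have h2 := CH_le_add h0 (tj F c w Hw l j (sn l w + u - j * w))
    (tj F c w Hw l j (sn l w + u - j * w₁)) Y
  have hj1 : (j : ℝ) ≤ 1 := by exact_mod_cast hj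
  have hj0 : (0 : ℝ) ≤ j := Nat.cast_nonneg j
  have hd0 : 0 ≤ w₁ - w := by linarith
  have h3 := ch_tj (F := F) (c := c) (w := w) (H := Hw) hp (l := l) (i := j)
    (M := sn l w + u - j * w₁) (M' := sn l w + u - j * w) (d := d * J)
    (Z := fun ω => (tj F c w Hw l j (sn l w + u - j * w₁) ω, Y ω))
    (fun ω ν _ _ e => (Prod.ext_iff.mp e).1) (mul_le_mul_of_nonneg_right (by nlinarith) hJ0)
    (mul_nonneg (by linarith) hJ0)
  have hl2' : Real.log 2 ≤ 1 := by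
    have := Real.log_two_lt_d9
    linarith
  have h4 : d * J * Real.log 2 ≤ d * J * 1 :=
    mul_le_mul_of_nonneg_left hl2' (mul_nonneg (by linarith) hJ0)
  linarith

end Pool.NA98
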