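import Pool.Agent.H98.NA.A2

/-!
# The engine on one event

`nda_ev`: the coefficients of both own paths in the window `w₁`, from far-dead without look-ahead,
the jets known near, the context and the rows; the last step: the codes in the window `w`.
-/

set_option autoImplicit false

namespace Pool.NA98

open Finset Real MvPolynomial
open Pool.Agent.H49.Ent Pool.Agent.H32.Dense
open Pool.STK hiding pr2
open Pool.KA Pool.KSAT Pool.K2S Pool.PB Pool.S6C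
open Pool.GEN Pool.CHT Pool.CHX Pool.ISO Pool.LA91 Pool.AVG71 Pool.AVG5 Pool.D2F2 Pool.AVG57
open Pool.RCD Pool.AVG96 Pool.OWN68 Pool.V0F Pool.VA83 Pool.XR71 Pool.PN18 Pool.LPK12
open Pool.AJW (CfB)
open Pool.GRD (LbP)
open Pool.VG83 (cl_cR det_cR2)
open Pool.TW44 (LV)

variable {m : ℕ}

/-- The record of a later window of the same event. -/
theorem det_cw {J : ℕ} {F : Fam m J} {A : F.Ω → Prop} {w x : ℝ} (hwx : w ≤ x) (hx : x ≤ 1)
    {ω ν : F.Ω} (hω : A ω) (hν : A ν) (e : cR F A x ω = cR F A x ν) : cR F A w ω = cR F A w ν := by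
  classical
  exact det_cR2 (fun _ h => h) hwx hx (p := fun ω => if A ω then 1 else 0) (fun ω h => by
    by_contra h1
    simp [h1] at h) ω ν (by simp [hω]) (by simp [hν]) e

/-- A label closed at a window before `x` is a function of the record of `x`. -/
theorem det_lb {J : ℕ} {F : Fam m J} {A : F.Ω → Prop} {w x : ℝ} (hwx : w ≤ x) (hx : x ≤ 1)
    {I : Finset (Fin m)} {κ : Fin m} {D P : ℕ} {V : Type} {z : PtT F → V} {z' : LnT F → V}
    {G : V → MvPolynomial (Option (Fin m)) ℝ} (h : LbP F I κ D J ⌊w * J⌋₊ P A z z' G)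
    {ω ν : F.Ω} (hω : A ω) (hν : A ν) (e : cR F A x ω = cR F A x ν) :
    z' (slam F ⌊w * J⌋₊ ω) = z' (slam F ⌊w * J⌋₊ ν) := by
  classical
  obtain ⟨χ, hχ⟩ := vg_mono hwx hx J F
  have h1 : Cl2 (ptr F J) (vg x J F) A (fun ω => z' (slam F ⌊w * J⌋₊ ω)) :=
    ⟨⟨z, fun ω hω => (h.cls ω hω).symm⟩, ⟨fun s => z' (χ s), fun ω _ => by
      show z' (slam F ⌊w * J⌋₊ ω) = z' (χ (vg x J F ω))
      rw [← hχ ω]
      rfl⟩⟩
  exact det_cR h1 (p := fun ω => if A ω then 1 else 0) (fun ω h => by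
    by_contra h1
    simp [h1] at h) ω ν (by simp [hω]) (by simp [hν]) e

/-- **The conclusion in the window** `w`. -/
theorem cod_fin (D D₁ : ℕ) (hD : 1 ≤ D) (hD₁ : D + 1 ≤ D₁) : ∃ C : ℝ, 0 ≤ C ∧
    ∀ {m J : ℕ} {F : Fam m J} {p : F.Ω → ℝ} (_ : IsLaw p) {c : ℕ → Fin m} {w w₁ s a d : ℝ}
    {H : LnT F → ℕ → MvPolynomial (Option (Fin m)) ℝ} {l : ℕ} {V Γ : Type} {z' : LnT F → V}
    {G : V → MvPolynomial (Option (Fin m)) ℝ} (Y : F.Ω → Γ), 0 ≤ w → w ≤ w₁ →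
    ⌊w₁ * (J : ℝ)⌋₊ ≤ J → (∀ s, (H s l).totalDegree ≤ D) → (∀ v, (G v).totalDegree ≤ D) →
    (∀ ω, G (z' (slam F ⌊w₁ * J⌋₊ ω)) = H (slam F ⌊w * J⌋₊ ω) l) →
    (∀ ω ω', 0 < p ω → 0 < p ω' → Y ω = Y ω' → F.T ω = F.T ω') → w₁ - w ≤ d → 0 ≤ a →
    (∀ j, CH p (fun ω => ⌊jr F ⌊w₁ * J⌋₊ (2 ^ (s * J)) (c l) z' G j
      (slam F ⌊w₁ * J⌋₊ ω)⌋) Y ≤ a * J) → ∀ N' : ℕ, (N' : ℝ) ≤ s * J →
    CH p (Pool.AVG57.cod F ⌊w * J⌋₊ (fun s' => H s' l) (c l) N' 0 (D + 1)) Y ≤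
      ((D + 2 : ℕ) : ℝ) * ((D₁ + 1) * (a * J) + (D + 1) * d * J) + C := by
  obtain ⟨C, hC, H⟩ := oj_coe D₁ (by omega)
  refine ⟨((D + 2 : ℕ) : ℝ) * (C + Real.log 5) + Pool.VA48.eCd (D + 1), ?_, ?_⟩
  · refine add_nonneg (by positivity) ?_
    unfold Pool.VA48.eCd
    refine mul_nonneg (Nat.cast_nonneg _) (Real.log_nonneg ?_)
    have : (0 : ℝ) < 2 ^ (2 * (D + 1) + 1) := by positivity
    linarith
  intro m J F p hp c w w₁ s a d Hh l V Γ z' G Y hw hw1 hWJ hdegH hdeg hG hY hd ha hc N' hN'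
  have h0 := hp.nonneg
  have hJ0 : (0 : ℝ) ≤ J := Nat.cast_nonneg J
  have hWW : ⌊w * (J : ℝ)⌋₊ ≤ ⌊w₁ * (J : ℝ)⌋₊ :=
    Nat.floor_le_floor (mul_le_mul_of_nonneg_right hw1 hJ0)
  have hd0 : 0 ≤ d := by linarith
  have h1 := H F hp (w := w₁) (s := s) (e := a * J) (hw.trans hw1) hWJ (κ := c l)
    (z' := z') (G := G) Y (fun v => (hdeg v).trans (by omega)) hY (fun j _ => hc j)
  have hl2' : Real.log 2 ≤ 1 := by
    have := Real.log_two_lt_d9
    linarith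
  have h2 := Pool.VA48.cod_jts hp (w := w) (N := s)
    (a := (D₁ + 1) * (a * J) + C + ((D + 1) * d * J + Real.log 5)) hw (hWW.trans hWJ)
    (H := fun s' => Hh s' l) hdegH (c l) hN' Y hY 0 (by positivity) (fun j _ hj => by
      have h3 := h1 j (by omega)
      have e1 : oj F (c l) z' G ⌊w₁ * J⌋₊ (s - j * w₁) j = tj F c w Hh l j (s - j * w₁) := by
        funext ω
        unfold oj tj
        rw [hG]
      rw [e1] at h3
      have h4 := CH_le_add h0 (tj F c w Hh l j (s - j * w))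
        (tj F c w Hh l j (s - j * w₁)) Y
      have hj1 : (j : ℝ) ≤ D + 1 := by exact_mod_cast hj
      have hj0 : (0 : ℝ) ≤ j := Nat.cast_nonneg j
      have hd1 : 0 ≤ w₁ - w := by linarith
      have h6 : (j : ℝ) * (w₁ - w) ≤ (D + 1) * d := mul_le_mul hj1 hd hd1 (by positivity)
      have h5 := ch_tj (F := F) (c := c) (w := w) (H := Hh) hp (l := l) (i := j)
        (M := s - j * w₁) (M' := s - j * w) (d := (D + 1) * d * J)
        (Z := fun ω => (tj F c w Hh l j (s - j * w₁) ω, Y ω))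
        (fun ω ν _ _ e => (Prod.ext_iff.mp e).1) (mul_le_mul_of_nonneg_right (by linarith) hJ0)
        (by positivity)
      have h7 : (D + 1) * d * J * Real.log 2 ≤ (D + 1) * d * J * 1 :=
        mul_le_mul_of_nonneg_left hl2' (by positivity)
      have h8 : CH p (tj F c w Hh l j (s - j * w)) Y ≤
          (D₁ + 1) * (a * J) + C + ((D + 1) * d * J + Real.log 5) := by linarith
      exact h8)
  refine h2.trans (le_of_eq ?_)
  ring

end Pool.NA98
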