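import Pool.Agent.H98.NA.X2
import Pool.Agent.H71.XR.Xf

/-!
# The row of the last place given the steep place

`nq : NqStmt`.
-/

set_option autoImplicit false

namespace Pool.NA98

open Finset Real MvPolynomial
open Pool.Agent.H49.Ent Pool.Agent.H32.Dense
open Pool.STK hiding pr2
open Pool.KA Pool.KSAT Pool.K2S Pool.PB Pool.S6C
open Pool.GEN Pool.CHT Pool.CHX Pool.ISO Pool.LA91 Pool.AVG71 Pool.AVG5 Pool.D2F2 Pool.AVG57
open Pool.RCD Pool.AVG96 Pool.OWN68 Pool.V0F Pool.VA83 Pool.XR71 Pool.V0T Pool.ALT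
open Pool.AJW (CfB)
open Pool.GRD (LbP)
open Pool.UNJ (ceI)
open Pool.KVA (MI)
open Pool.VG83 (cl_cR det_cR2)

/-- **The row of the last place given the steep place.** -/
theorem nq : NqStmt := by
  intro k D al be h μ ε π₀ hb1 hba hh hh1 hμ hε hπ
  have hk0 : (0 : ℝ) ≤ k := Nat.cast_nonneg k
  have hal : 0 < al := by linarith
  obtain ⟨Cr, hCr⟩ : ∃ Cr : ℝ, Cr = 100 * ((k : ℝ) + 3) ^ 2 := ⟨_, rfl⟩
  have hCr0 : 900 ≤ Cr := by rw [hCr]; nlinarith
  obtain ⟨M₀, hM₀⟩ : ∃ M₀ : ℝ, M₀ = 19 * Cr + 15 + 4 * (((k : ℝ) + 1) * (3 * Cr + 11)) :=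
    ⟨_, rfl⟩
  have hM0 : 0 < M₀ := by rw [hM₀]; positivity
  obtain ⟨φ₁, hφ₁, f1, f2, f3, f4, -⟩ := small5 (a := al) (b := 3 * Cr + 10) (c := 100 * Cr)
    (d := M₀) (f := 1) (A := μ) (B := ε / 2) hal (by positivity) (by positivity) hM0 one_pos
    hμ (by positivity)
  refine ⟨φ₁, 10, hφ₁, ?_⟩
  intro m S c sn sp G b o w u Λ φ' e' lam X hΛ K₀ e₀ ρ₀ φ t₁ t₂ w₁ hφ'φ hφ hw
    hwφ ht1 ht12 ht2 E
  have hu := X.u0
  have hφ'0 := X.lad.φ0
  have hφ0 : 0 < φ := hφ'0.trans_le hφ'φ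
  have hbw := X.bw
  have hwo := X.wo
  have ho1 := X.o1
  have hb0 := X.lad.b0
  have hl2 : 0 < Real.log 2 := Real.log_pos one_lt_two
  have hl2' : Real.log 2 ≤ 1 := by
    have := Real.log_two_lt_d9
    linarith
  have hl5 : 0 < Real.log 5 := Real.log_pos (by norm_num)
  have hΛu : 10 * u ≤ Λ * u := mul_le_mul_of_nonneg_right hΛ hu.le
  -- small numbers
  have g1 : φ₁ * u * (100 * Cr) ≤ u := by
    have := mul_le_mul_of_nonneg_right f3 hu.le
    linarith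
  have g2 : 100 * (Cr * φ) ≤ u := by
    have : φ * (100 * Cr) ≤ φ₁ * u * (100 * Cr) := mul_le_mul_of_nonneg_right hφ (by positivity)
    linarith
  have g4 : 3 * (Cr * φ) + 10 * φ ≤ μ * u := by
    have a1 : φ * (3 * Cr + 10) ≤ φ₁ * u * (3 * Cr + 10) :=
      mul_le_mul_of_nonneg_right hφ (by positivity)
    have a2 := mul_le_mul_of_nonneg_right f2 hu.le
    linarith
  have g6 : 900 * φ ≤ Cr * φ := mul_le_mul_of_nonneg_right hCr0 hφ0.le
  have hμu : 0 < μ * u := by positivity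
  have h10 : 10 * φ ≤ u := by linarith
  have X0 : XR0 S c k sn G al be h w o u Λ φ lam := XR0.of X (by linarith) (by linarith) hφ'φ
  -- the depths
  obtain ⟨s₁, hs₁⟩ : ∃ s₁ : ℝ, s₁ = al * t₁ := ⟨_, rfl⟩
  obtain ⟨s₂, hs₂⟩ : ∃ s₂ : ℝ, s₂ = al * t₂ := ⟨_, rfl⟩
  have r1 : be / al * s₁ = be * t₁ := by rw [hs₁]; field_simp
  have r2 : be / al * s₂ = be * t₂ := by rw [hs₂]; field_simp
  have r3 : μ * u ≤ be * (t₂ - t₁) := by
    have : 1 * (t₂ - t₁) ≤ be * (t₂ - t₁) := mul_le_mul_of_nonneg_right hb1 (by linarith)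
    linarith
  have r4 : be * (t₂ - t₁) ≤ al * (t₂ - t₁) := mul_le_mul_of_nonneg_right hba.le (by linarith)
  have r5 : s₂ - s₁ = al * (t₂ - t₁) := by rw [hs₁, hs₂]; ring
  have r6 : be * (t₂ - t₁) = be * t₂ - be * t₁ := by ring
  have hs10 : 0 ≤ s₁ := by rw [hs₁]; positivity
  have hs2u : s₂ ≤ u := by rw [hs₂]; exact ht2
  have e1 : (2 * Cr + 10) * φ = 2 * (Cr * φ) + 10 * φ := by ring
  have e2 : (Cr + 10) * φ = Cr * φ + 10 * φ := by ring
  obtain ⟨v, vq, yq, W⟩ := X0.wins (by linarith) h10 (s₁ := s₁) (s₂ := s₂) (Cr := Cr)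
    (η := Cr * φ) (by linarith) (by linarith) (by linarith) le_rfl (by rw [e1]; linarith)
    (by rw [r1, r2, e2]; linarith)
  have hε8 : 0 < ε * u / 8 := by positivity
  have hvG := W.vG
  have hwv := W.wv
  have hvo := W.vo
  have hwv1 : (w₁ : ℝ) ≤ v := by
    have a1 := abs_le.1 (X0.lin0 v hvG hwv hvo)
    have a2 := W.al1
    have a3 : al * ((w₁ : ℝ) - w) ≤ al * (v - w) := by linarith
    have := le_of_mul_le_mul_left a3 hal
    linarith
  obtain ⟨e₁, he₁, H₁⟩ := X0.row_cls2 (w₁ := w₁) (by linarith) h10 hCr.ge W hs10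
    (by linarith) le_rfl (by linarith) (by rw [r1, r2, e2]; linarith) hw hwv1 hπ hε8
  have hw0 : 0 ≤ w := by linarith
  have hw1 : w ≤ 1 := by linarith
  obtain ⟨Ma, Ja, hMa⟩ := nev_v m D k (nVx sn w s₂ Cr φ) (w := w) (E := E) hw0 hw1
  obtain ⟨Mb, Jb, hMb⟩ := nev_tg m D k (P1x k sn w (be / al) s₁ Cr φ) (w := w) (E := E) hw0 hw1
  obtain ⟨Mc, Jc, hMc⟩ := nev_tg m D k (P2x k sn w s₂ lam yq) (w := w) (E := E) hw0 hw1
  obtain ⟨M, hM⟩ : ∃ M : ℕ, M = Ma + Mb + Mc := ⟨_, rfl⟩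
  have hvvq := W.vvq
  have hvy := W.vy
  have hyqs := W.yqs
  have p20 : P2x k sn w s₂ lam yq 0 = sn k w + s₂ := if_pos rfl
  have hkφ : 0 ≤ (k : ℝ) * φ := by positivity
  have hCk : 100 * (k * φ) + 900 * φ ≤ Cr * φ := by
    have : 100 * (k * φ) + 900 * φ = (100 * (k : ℝ) + 900) * φ := by ring
    rw [this]
    refine mul_le_mul_of_nonneg_right (le_trans ?_ hCr.ge) hφ0.le
    nlinarith
  have e40 : 40 * ((k : ℝ) + 1) * φ = 40 * (k * φ) + 40 * φ := by ring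
  obtain ⟨lk1, lk2, lk3⟩ := X0.lev k (by omega)
  obtain ⟨e₂, he₂, H₂⟩ := ful_k X0.lad (w := w) (v := v) (pr := prx k sn w φ 0)
    (P := P2x k sn w s₂ lam yq 0) X0.wG hvG hwv hvo le_rfl (by rw [p20]; linarith)
    (by rw [p20]; linarith) (by rw [p20, e40]; linarith)
    (fun l hl => by
      have := X0.lev l (by omega)
      rw [p20, e40]
      linarith) hπ hε8
  obtain ⟨Jd, hJd⟩ := exists_nat_gt (((k : ℝ) + 1) * (2 + 2 * Real.log 5) / (ε * u / 32))
  refine Bas.mono (Ja + Jb + Jc + Jd + 1) (((H₁ M).and (H₂ M)).and (pos_bas X.lad.pos)) ?_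
  rintro J hJ F A ⟨⟨H1, H2⟩, hA⟩ Hb Hw H XE B hB hm
  have hPB : 0 < Pe F.p B := lt_of_lt_of_le (mul_pos hπ hA) hm
  have hcl := isLaw_cond F.isLaw hPB
  have h0 := hcl.nonneg
  have hpB : ∀ ω, 0 < Pool.Agent.H49.Ent.cond F.p B True ω → B ω := fun ω hω => cond_pos hω
  have hJ0 : (0 : ℝ) ≤ J := Nat.cast_nonneg J
  have hlog : ((k : ℝ) + 1) * (2 + 2 * Real.log 5) ≤ ε * u / 32 * J := by
    have a1 : (Jd : ℝ) ≤ J := by
      have : Jd ≤ J := by omega
      exact_mod_cast this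
    have a2 := hJd.le.trans a1
    rw [div_le_iff₀ (by positivity)] at a2
    linarith
  -- the class theorem
  have key := H1 _ _ _ (hMa M (by omega) J (by omega) XE hφ'φ e₁ he₁.le)
    (hMb M (by omega) J (by omega) XE e₁ he₁.le)
    (hMc M (by omega) J (by omega) XE e₁ he₁.le) B hB hm
  have hn2 : (fun ω => (fun ω (t : Fin (1 + 1)) => tj F c w H (k + (t : ℕ)) 0
      (P2x k sn w s₂ lam yq t) ω) ω 1) = tj F c w H (k + 1) 0 (lam yq) := by
    funext ω
    show tj F c w H (k + 1) 0 (P2x k sn w s₂ lam yq 1) ω = _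
    unfold P2x
    rw [if_neg one_ne_zero]
  have hn1 : (fun ω => (fun ω (t : Fin (1 + 1)) => tj F c w H (k + (t : ℕ)) 0
      (P1x k sn w (be / al) s₁ Cr φ t) ω) ω 1) =
      tj F c w H (k + 1) 0 (sn (k + 1) w + be / al * s₁ - (Cr + 4) * φ) := by
    funext ω
    show tj F c w H (k + 1) 0 (P1x k sn w (be / al) s₁ Cr φ 1) ω = _
    unfold P1x
    rw [if_neg one_ne_zero]
  have hu2 : (fun ω => (fun ω (t : Fin (1 + 1)) => tj F c w H (k + (t : ℕ)) 0
      (P2x k sn w s₂ lam yq t) ω) ω 0) = tj F c w H k 0 (sn k w + al * t₂) := by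
    funext ω
    show tj F c w H (k + 0) 0 (P2x k sn w s₂ lam yq 0) ω = _
    unfold P2x
    rw [if_pos rfl, hs₂]
    rfl
  have hu1 : (fun ω => (fun ω (t : Fin (1 + 1)) => tj F c w H (k + (t : ℕ)) 0
      (P1x k sn w (be / al) s₁ Cr φ t) ω) ω 0) = tj F c w H k 0 (sn k w + al * t₁) := by
    funext ω
    show tj F c w H (k + 0) 0 (P1x k sn w (be / al) s₁ Cr φ 0) ω = _
    unfold P1x
    rw [if_pos rfl, hs₁]
    rfl
  -- the number of the first place
  have F3 := H2 _ (hMc M (by omega) J (by omega) XE e₂ he₂.le 0) B hB hm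
  rw [p20] at F3
  -- numbers
  obtain ⟨w1, w2, w3, w4, w5, w6, w7, w8, w9, w10, w11, w12, w13, w14, w15⟩ := W
  have w15' := abs_le.1 w15
  rw [r1] at w7 w9 w10
  rw [r2] at w12 w13 w15'
  have e4 : (Cr + 8) * φ = Cr * φ + 8 * φ := by ring
  have e5 : (Cr + 4) * φ = Cr * φ + 4 * φ := by ring
  rw [e4] at w6 w9
  have n2 : al * (t₂ - t₁) - (Cr * φ + 8 * φ) ≤ sn k w + s₂ - sn k v := by linarith
  have n3 : lam yq - (sn (k + 1) w + be / al * s₁ - (Cr + 4) * φ) ≤ be * (t₂ - t₁) := by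
    rw [r1, e5]
    linarith
  have n4 : (1 - h) * (lam yq - (sn (k + 1) w + be / al * s₁ - (Cr + 4) * φ)) ≤
      (1 - h) * (be * (t₂ - t₁)) := mul_le_mul_of_nonneg_left n3 (by linarith)
  obtain ⟨e'', he''⟩ : ∃ e'' : ℝ, e'' = (((k : ℝ) + 1) * (3 * Cr + 11) * φ) * J +
    ((k : ℝ) + 1) * (2 + 2 * Real.log 5) := ⟨_, rfl⟩
  have hkl : 2 + 2 * Real.log 5 ≤ ((k : ℝ) + 1) * (2 + 2 * Real.log 5) :=
    le_mul_of_one_le_left (by positivity) (by linarith)
  have hkc : 0 ≤ ((k : ℝ) + 1) * (3 * Cr + 11) * φ * J := by positivity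
  have hkd : (3 * Cr + 11) * φ * J ≤ ((k : ℝ) + 1) * (3 * Cr + 11) * φ * J := by
    have : 1 * ((3 * Cr + 11) * φ * J) ≤ ((k : ℝ) + 1) * ((3 * Cr + 11) * φ * J) :=
      mul_le_mul_of_nonneg_right (by linarith) (by positivity)
    linarith
  have he''0 : ∀ t, t ≤ (3 * Cr + 11) * φ * J + (2 + 2 * Real.log 5) → t ≤ e'' := fun t ht => by
    rw [he'']
    linarith
  have hcφ : 0 ≤ (3 * Cr + 11) * φ * J := by positivity
  have fin := row_sd h0 (u₁ := fun ω => (fun ω (t : Fin (1 + 1)) => tj F c w H (k + (t : ℕ)) 0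
      (P1x k sn w (be / al) s₁ Cr φ t) ω) ω 1)
    (u₂ := fun ω => (fun ω (t : Fin (1 + 1)) => tj F c w H (k + (t : ℕ)) 0
      (P2x k sn w s₂ lam yq t) ω) ω 1)
    (n₁ := fun ω => (fun ω (t : Fin (1 + 1)) => tj F c w H (k + (t : ℕ)) 0
      (P1x k sn w (be / al) s₁ Cr φ t) ω) ω 0)
    (n₂ := fun ω => (fun ω (t : Fin (1 + 1)) => tj F c w H (k + (t : ℕ)) 0
      (P2x k sn w s₂ lam yq t) ω) ω 0)
    (V := jh F c k ⌊w * J⌋₊ Hw (nVx sn w s₂ Cr φ))
    (V' := fun ω (l : Fin k) => tj F c w Hw l 0 (sn l w + u) ω)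
    (z := cR F A w₁) (y := F.W) (U₁ := tj F c w H (k + 1) 0 (sn (k + 1) w + be * t₁))
    (U₂ := tj F c w H (k + 1) 0 (sn (k + 1) w + be * t₂))
    (sd := tj F c w H k 0 (sn k w + al * t₂)) (e := e'') key
    (by
      have c1 : (fun ω => ((fun ω (t : Fin (1 + 1)) => tj F c w H (k + (t : ℕ)) 0
          (P1x k sn w (be / al) s₁ Cr φ t) ω) ω 0,
          (fun ω (t : Fin (1 + 1)) => tj F c w H (k + (t : ℕ)) 0
          (P2x k sn w s₂ lam yq t) ω) ω 0)) = fun ω =>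
          (tj F c w H k 0 (sn k w + al * t₁) ω,
            tj F c w H k 0 (sn k w + al * t₂) ω) := by
        funext ω
        exact Prod.ext (congrFun hu1 ω) (congrFun hu2 ω)
      rw [c1]
      have a2 := CH_subadd h0 (tj F c w H k 0 (sn k w + al * t₁))
        (tj F c w H k 0 (sn k w + al * t₂))
        (fun ω => (tj F c w H k 0 (sn k w + al * t₂) ω, F.W ω))
      have a3 := ch_tj (H := H) (w := w) (c := c) (l := k) (i := 0) hcl
        (M := sn k w + al * t₂) (M' := sn k w + al * t₁) (d := 0)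
        (Z := fun ω => (tj F c w H k 0 (sn k w + al * t₂) ω, F.W ω))
        (fun ω ν _ _ e => (Prod.ext_iff.mp e).1)
        (mul_nonpos_of_nonpos_of_nonneg (by linarith) hJ0) le_rfl
      have a4 := ch_tj (H := H) (w := w) (c := c) (l := k) (i := 0) hcl
        (M := sn k w + al * t₂) (M' := sn k w + al * t₂) (d := 0)
        (Z := fun ω => (tj F c w H k 0 (sn k w + al * t₂) ω, F.W ω))
        (fun ω ν _ _ e => (Prod.ext_iff.mp e).1)
        (mul_nonpos_of_nonpos_of_nonneg (by linarith) hJ0) le_rfl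
      refine he''0 _ ?_
      linarith)
    (by
      rw [hn1]
      have a3 := ch_tj (H := H) (w := w) (c := c) (l := k + 1) (i := 0) hcl
        (M := sn (k + 1) w + be * t₁)
        (M' := sn (k + 1) w + be / al * s₁ - (Cr + 4) * φ) (d := 0)
        (Z := tj F c w H (k + 1) 0 (sn (k + 1) w + be * t₁))
        (fun ω ν _ _ e => e)
        (mul_nonpos_of_nonpos_of_nonneg (by
          rw [r1, e5]
          linarith) hJ0) le_rfl
      refine he''0 _ ?_
      linarith)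
    (by
      rw [hn2]
      have a3 := ch_tj (H := H) (w := w) (c := c) (l := k + 1) (i := 0) hcl
        (M := lam yq) (M' := sn (k + 1) w + be * t₂) (d := (3 * Cr + 11) * φ * J)
        (Z := tj F c w H (k + 1) 0 (lam yq))
        (fun ω ν _ _ e => e)
        (mul_le_mul_of_nonneg_right (by
          have : (3 * Cr + 11) * φ = 3 * (Cr * φ) + 11 * φ := by ring
          rw [this]
          linarith) hJ0) hcφ
      refine he''0 _ ?_
      have : ((3 * Cr + 11) * φ * J) * Real.log 2 ≤ ((3 * Cr + 11) * φ * J) * 1 :=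
        mul_le_mul_of_nonneg_left hl2' hcφ
      linarith)
    (by
      have a1 := ch_jw (F := F) (c := c) (k := k) (w := w) (Hw := Hw) hcl
        (n' := nVx sn w s₂ Cr φ) (n := fun l => sn l w + u)
        (d := (3 * Cr + 10) * φ * J) (fun l hl => by
          unfold nVx
          refine mul_le_mul_of_nonneg_right ?_ hJ0
          linarith) (by positivity)
      refine a1.trans ?_
      rw [he'']
      have b0 : 0 ≤ (3 * Cr + 10) * φ * J := by positivity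
      have b1 : ((3 * Cr + 10) * φ * J) * Real.log 2 ≤ ((3 * Cr + 10) * φ * J) * 1 :=
        mul_le_mul_of_nonneg_left hl2' (by positivity)
      have b2 : k * (((3 * Cr + 10) * φ * J) * Real.log 2 + Real.log 5) ≤
          ((k : ℝ) + 1) * (((3 * Cr + 10) * φ * J) * 1 + Real.log 5) :=
        mul_le_mul (by linarith) (by linarith) (by positivity) (by positivity)
      have b3 : ((k : ℝ) + 1) * (((3 * Cr + 10) * φ * J) * 1 + Real.log 5) =
          ((k : ℝ) + 1) * (3 * Cr + 11) * φ * J + ((k : ℝ) + 1) * (2 + 2 * Real.log 5) -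
          ((k : ℝ) + 1) * φ * J - ((k : ℝ) + 1) * (2 + Real.log 5) := by ring
      have b4 : 0 ≤ ((k : ℝ) + 1) * (2 + Real.log 5) := by positivity
      have b5 : 0 ≤ ((k : ℝ) + 1) * φ * J := by positivity
      linarith)
  refine le_trans (CH_mono_cond h0 fun ω ν _ _ e => ?_) (fin.trans ?_)
  · simp only [Prod.mk.injEq] at e ⊢
    tauto
  -- the sum
  rw [r5]
  have t1 : ((1 - h) * (lam yq - (sn (k + 1) w + be / al * s₁ - (Cr + 4) * φ)) +
      al * (t₂ - t₁)) * Real.log 2 ≤ ((1 - h) * (be * (t₂ - t₁)) + al * (t₂ - t₁)) *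
      Real.log 2 := mul_le_mul_of_nonneg_right (by linarith) hl2.le
  have t2 : (al * (t₂ - t₁) - (Cr * φ + 8 * φ)) * Real.log 2 ≤
      (sn k w + s₂ - sn k v) * Real.log 2 := mul_le_mul_of_nonneg_right n2 hl2.le
  have t3 : (Cr * φ + 8 * φ) * Real.log 2 ≤ (Cr * φ + 8 * φ) * 1 :=
    mul_le_mul_of_nonneg_left hl2' (by positivity)
  have t5 : (19 * Cr + 10) * φ ≤ (19 * Cr + 10) * (φ₁ * u) :=
    mul_le_mul_of_nonneg_left hφ (by positivity)
  have t6 : ((k : ℝ) + 1) * (3 * Cr + 11) * φ ≤ ((k : ℝ) + 1) * (3 * Cr + 11) * (φ₁ * u) :=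
    mul_le_mul_of_nonneg_left hφ (by positivity)
  have t7 : φ₁ * u * M₀ ≤ ε / 2 * u := by
    have := mul_le_mul_of_nonneg_right f4 hu.le
    linarith
  have t8 : (((1 - h) * (lam yq - (sn (k + 1) w + be / al * s₁ - (Cr + 4) * φ)) +
      al * (t₂ - t₁)) *
      Real.log 2 + φ + 16 * Cr * φ + ε * u / 8 - ((sn k w + s₂ - sn k v) * Real.log 2 -
      ε * u / 8) +
      4 * (((k : ℝ) + 1) * (3 * Cr + 11) * φ)) + 4 * (ε * u / 32) ≤
      (be - h * be) * (t₂ - t₁) * Real.log 2 + ε * u := by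
    rw [hM₀] at t7
    have a1 : (be - h * be) * (t₂ - t₁) * Real.log 2 =
        ((1 - h) * (be * (t₂ - t₁)) + al * (t₂ - t₁)) * Real.log 2 -
        al * (t₂ - t₁) * Real.log 2 := by
      ring
    rw [a1]
    have : 0 ≤ φ₁ * u := by positivity
    have : 0 ≤ Cr * φ := by positivity
    linarith
  have t9 := mul_le_mul_of_nonneg_right t8 hJ0
  rw [he'']
  linarith

end Pool.NA98
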