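import Pool.Agent.H98.NA.A3
import Pool.Agent.H98.NA.X3
import Pool.Agent.H98.NA.X4
import Pool.Agent.H76.NA.Nck
import Pool.Agent.H6.NI.Ni

/-!
# Near-dead on one event

`nda : NdaStmt`.
-/

set_option autoImplicit false

namespace Pool.NA98

open Finset Real MvPolynomial
open Pool.Agent.H49.Ent Pool.Agent.H32.Dense
open Pool.STK hiding pr2
open Pool.KA Pool.KSAT Pool.K2S Pool.PB Pool.S6C
open Pool.GEN Pool.CHT Pool.CHX Pool.ISO Pool.LA91 Pool.AVG71 Pool.AVG5 Pool.D2F2 Pool.AVG57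
open Pool.RCD Pool.AVG96 Pool.OWN68 Pool.V0F Pool.VA83 Pool.XR71 Pool.PN18 Pool.LPK12
open Pool.AJW (CfB)
open Pool.GRD (LbP)
open Pool.VG83 (cl_cR det_cR2)
open Pool.TW44 (LV)

/-- The alive order of the steep place. -/
theorem dgA_k {k : ℕ} {al be : ℝ} (hal : 0 < al) {j : ℕ} (hj : j ≠ ⌊al⌋₊) :
    dgA k al be k j = 1 := by
  unfold dgA
  rw [if_pos rfl, if_neg]
  rintro ⟨h1, h2⟩
  refine hj (le_antisymm (Nat.le_floor h2) ?_)
  have h3 := Nat.floor_le hal.le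
  have h4 : ((⌊al⌋₊ : ℕ) : ℝ) < ((j + 1 : ℕ) : ℝ) := by
    push_cast
    linarith
  have h5 : ⌊al⌋₊ < j + 1 := by exact_mod_cast h4
  omega

/-- The alive order of the last place. -/
theorem dgA_n {k : ℕ} {al be : ℝ} (hbe : 0 < be) (hba : be < al) {j : ℕ} (hj : j ≠ ⌊be⌋₊) :
    dgA k al be (k + 1) j = be / al := by
  unfold dgA
  rw [if_neg (by omega), if_neg]
  rintro ⟨h1, h2⟩
  refine hj (le_antisymm (Nat.le_floor h2) ?_)
  have h3 := Nat.floor_le hbe.le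
  have h6 : be / al < 1 := (div_lt_one (hbe.trans hba)).2 hba
  have h4 : ((⌊be⌋₊ : ℕ) : ℝ) < ((j + 1 : ℕ) : ℝ) := by
    push_cast
    linarith
  have h5 : ⌊be⌋₊ < j + 1 := by exact_mod_cast h4
  omega

theorem dgA_nn {k : ℕ} {al be : ℝ} (hbe : 0 < be) (hal : 0 < al) (l j : ℕ) :
    0 ≤ dgA k al be l j := by
  unfold dgA
  have : 0 ≤ be / al := by positivity
  split_ifs <;> linarith

end Pool.NA98
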