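import Pool.Agent.H98.NA.S
import Pool.Agent.H71.XR.Xg

/-!
# The windows of a pair from one window on

`XR0`: the fields of `XBox` which the rows use, for the ladder cut at the window `w`, at any larger
closeness. `XR0.wins`, `XR0.row_cls`: as in `H71/XR/Xc.lean`, `Xd.lean`. `XR0.ecls`: the exchanged
row.
-/

set_option autoImplicit false

namespace Pool.NA98

open Finset Real MvPolynomial
open Pool.Agent.H49.Ent Pool.Agent.H32.Dense
open Pool.STK hiding pr2
open Pool.KA Pool.KSAT Pool.K2S Pool.PB Pool.S6C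
open Pool.GEN Pool.CHT Pool.CHX Pool.ISO Pool.LA91 Pool.AVG71 Pool.AVG5 Pool.D2F2 Pool.AVG57
open Pool.RCD Pool.AVG96 Pool.OWN68 Pool.V0F Pool.VA83 Pool.XR71 Pool.V0T
open Pool.AJW (CfB)
open Pool.UNJ (ceI)
open Pool.KVA (MI)

/-- **The ladder from the window** `w` **on**: the fields which the rows use. -/
structure XR0 {m : ℕ} (S : PCl m) (c : ℕ → Fin m) (k : ℕ) (sn : ℕ → ℝ → ℝ) (G : Set ℝ)
    (al be h w o u Λ φ : ℝ) (lam : ℝ → ℝ) : Prop where
  lad : LadV S c k 1 sn G w o φ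
  img : (range (k + 1)).image c = univ.erase (c (k + 1))
  be1 : 1 ≤ be
  bal : be ≤ al
  u0 : 0 < u
  wG : w ∈ G
  wo : w + Λ * u ≤ o
  o1 : o + Λ * u ≤ 1
  lev : ∀ l ≤ k + 1, Λ * u ≤ sn l w ∧ sn l w + Λ * u ≤ 1 ∧ sn l w + (o - w) + Λ * u ≤ 1 + 2 * φ
  lin0 : ∀ v ∈ G, w ≤ v → v ≤ o → |sn k v - sn k w - al * (v - w)| ≤ φ
  lin1 : ∀ v ∈ G, w ≤ v → v ≤ o → |sn (k + 1) v - sn (k + 1) w - be * (v - w)| ≤ φ
  lamt : ∀ v : ℝ, w ≤ v → v ≤ o → |lam v - sn (k + 1) w - be * (v - w)| ≤ φ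
  row : ∀ P₁ P₂ : ℝ, |P₁ - sn (k + 1) w| ≤ Λ * u → |P₂ - sn (k + 1) w| ≤ Λ * u → P₁ ≤ P₂ →
    RawN S (univ.erase (c (k + 1))) (c (k + 1)) P₁ (P₂ - P₁) h φ
  att : ∃ rk E : ℝ, rk < 1 ∧ 0 ≤ E ∧
    AttG S ((range (k + 1)).image c) (c (k + 1)) w (sn (k + 1) w) rk E ∧
    sn (k + 1) w + E + Λ * u ≤ 1
  rn : ∀ w₁ : ℚ, ∃ η : ℝ, RNum S (fun J F => ptr F J) (vg (w₁ : ℝ)) η

variable {m : ℕ} {S : PCl m} {c : ℕ → Fin m} {k : ℕ} {sn sp : ℕ → ℝ → ℝ} {G : Set ℝ}
  {al be h b o w u Λ φ e : ℝ} {lam : ℝ → ℝ}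

/-- From the box. -/
theorem XR0.of {φ' : ℝ} (X : XBox S c k sn sp G al be h b o w u Λ φ' e lam) (hΛ : 1 ≤ Λ)
    (hφ : 10 * φ' ≤ u) (h1 : φ' ≤ φ) : XR0 S c k sn G al be h w o u Λ φ lam := by
  have hu := X.u0
  have hbw := X.bw
  have hΛu : u ≤ Λ * u := le_mul_of_one_le_left hu.le hΛ
  refine ⟨ladv_mono (X.lad.ct X.wG (by linarith) (by linarith [X.wo])) h1, X.img, X.be1, X.bal, hu,
    X.wG, X.wo, X.o1, fun l hl => ?_, fun v hv h2 h3 => (X.lin0 v hv (by linarith) h3).trans h1,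
    fun v hv h2 h3 => (X.lin1 v hv (by linarith) h3).trans h1,
    fun v h2 h3 => (X.lamt v (by linarith) h3).trans h1, fun P₁ P₂ h2 h3 h4 => ?_, X.att, X.rn⟩
  · obtain ⟨a1, a2, a3⟩ := X.lev hΛ hφ l hl
    exact ⟨a1, a2, by linarith⟩
  · exact RawN.mono (X.row P₁ P₂ h2 h3 h4) h1

/-- **A fine mesh of windows.** -/
theorem XR0.mesh (X : XR0 S c k sn G al be h w o u Λ φ lam) (hΛ : 1 ≤ Λ)
    (hφ : 10 * φ ≤ u) : ∀ x, w ≤ x → x ≤ o → ∃ v ∈ G, |v - x| ≤ φ ∧ al * |v - x| ≤ 3 * φ := by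
  obtain ⟨φ', h1, h2, h3, h4⟩ := X.lad.fm
  have hu := X.u0
  have hΛu : u ≤ Λ * u := le_mul_of_one_le_left hu.le hΛ
  have hbw : w ≤ w := le_rfl
  have hwo := X.wo
  have hal : 0 < al := by linarith [X.be1, X.bal]
  obtain ⟨v, hv, hv1⟩ := h3 (w + 2 * φ') (by linarith) (by linarith)
  have hv2 := abs_le.1 hv1
  have a1 := h4 k le_rfl (by omega) w X.wG v hv (by linarith) (by linarith) (by linarith)
    (by linarith)
  have a2 := (abs_le.1 (X.lin0 v hv (by linarith) (by linarith))).1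
  have a3 : al * φ' ≤ al * (v - w) := mul_le_mul_of_nonneg_left (by linarith) hal.le
  intro x hx hx'
  obtain ⟨v', hv', hv3⟩ := h3 x hx hx'
  exact ⟨v', hv', hv3.trans h2, (mul_le_mul_of_nonneg_left hv3 hal.le).trans (by linarith)⟩

/-- **The window at the depth** `s` of the steep place. -/
theorem XR0.win (X : XR0 S c k sn G al be h w o u Λ φ lam) (hΛ : 1 ≤ Λ)
    (hφ : 10 * φ ≤ u) {s : ℝ} (h3 : 3 * φ ≤ s) (hs : s + φ ≤ Λ * u) : ∃ v ∈ G, w ≤ v ∧ v ≤ o ∧
      v - w ≤ s + φ ∧ s ≤ al * (v - w) + 3 * φ ∧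
      |sn k v - sn k w - s| ≤ 4 * φ ∧ |sn (k + 1) v - sn (k + 1) w - be / al * s| ≤ 4 * φ ∧
      |be * (v - w) - be / al * s| ≤ 3 * φ := by
  have hu := X.u0
  have hb1 := X.be1
  have hba := X.bal
  have hφ0 := X.lad.φ0
  have hal : 0 < al := by linarith
  have hbw : w ≤ w := le_rfl
  have hwo := X.wo
  have hΛu : u ≤ Λ * u := le_mul_of_one_le_left hu.le hΛ
  have hs0 : 0 ≤ s := by linarith
  have hsa : s / al ≤ s := div_le_self hs0 (by linarith)
  have hsa0 : 0 ≤ s / al := by positivity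
  obtain ⟨v, hv, h1, h2⟩ := X.mesh hΛ hφ (w + s / al) (by linarith) (by linarith)
  have e0 : al * (s / al) = s := by field_simp
  have e1 : al * (v - w) = s + al * (v - (w + s / al)) := by
    have : al * (v - w) = al * (s / al) + al * (v - (w + s / al)) := by ring
    rw [this, e0]
  have e2 : |al * (v - (w + s / al))| ≤ 3 * φ := by
    rw [abs_mul, abs_of_pos hal]
    exact h2
  have e3 : |be * (v - (w + s / al))| ≤ 3 * φ := by
    rw [abs_mul, abs_of_pos (by linarith : 0 < be)]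
    exact (mul_le_mul_of_nonneg_right hba (abs_nonneg _)).trans h2
  have e4 : be * (v - w) - be / al * s = be * (v - (w + s / al)) := by
    have : be / al * s = be * (s / al) := by ring
    rw [this]
    ring
  have h1' := abs_le.1 h1
  have e2' := abs_le.1 e2
  have e3' := abs_le.1 e3
  have hwv : w ≤ v := by
    have : 0 ≤ al * (v - w) := by linarith
    have := nonneg_of_mul_nonneg_right this hal
    linarith
  have hvo : v ≤ o := by linarith
  have l0 := abs_le.1 (X.lin0 v hv (by linarith) hvo)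
  have l1 := abs_le.1 (X.lin1 v hv (by linarith) hvo)
  refine ⟨v, hv, hwv, hvo, by linarith, by linarith, ?_, ?_, ?_⟩
  · rw [abs_le]
    constructor <;> linarith
  · rw [abs_le]
    constructor <;> linarith
  · rw [e4]
    exact e3

/-- **They exist.** -/
theorem XR0.wins (X : XR0 S c k sn G al be h w o u Λ φ lam) (hΛ : 1 ≤ Λ)
    (hφ : 10 * φ ≤ u) {s₁ s₂ Cr η : ℝ} (hCr : 10 ≤ Cr) (h1 : 0 ≤ s₁) (h12 : s₁ ≤ s₂)
    (hη : Cr * φ ≤ η) (h2 : s₂ + (2 * Cr + 10) * φ ≤ Λ * u)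
    (hr : be / al * s₁ + (Cr + 10) * φ + 2 * η ≤ be / al * s₂) :
    ∃ (v : ℝ) (vq yq : ℚ), XWn k sn G (be / al) be w o s₁ s₂ φ Cr η lam v vq yq := by
  have hu := X.u0
  have hb1 := X.be1
  have hba := X.bal
  have hφ0 := X.lad.φ0
  have hal : 0 < al := by linarith
  have hbe : 0 < be := by linarith
  have hr0 : 0 < be / al := by positivity
  have hr1 : be / al ≤ 1 := (div_le_one hal).2 hba
  have hbw : w ≤ w := le_rfl
  have hwo := X.wo
  have hΛu : u ≤ Λ * u := le_mul_of_one_le_left hu.le hΛ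
  obtain ⟨r, hr'⟩ : ∃ r, r = be / al := ⟨_, rfl⟩
  rw [← hr'] at hr0 hr1 hr ⊢
  have hCφ : 10 * φ ≤ Cr * φ := mul_le_mul_of_nonneg_right hCr hφ0.le
  have e1 : (Cr + 10) * φ = Cr * φ + 10 * φ := by ring
  have e2 : (2 * Cr + 10) * φ = 2 * (Cr * φ) + 10 * φ := by ring
  rw [e1] at hr
  rw [e2] at h2
  obtain ⟨v, hv, v1, v2, v3, -, v4, v5, v6⟩ := X.win hΛ hφ (s := s₁ + Cr * φ + 4 * φ)
    (by linarith) (by linarith)
  rw [← hr'] at v5 v6
  have v4' := abs_le.1 v4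
  have v5' := abs_le.1 v5
  have v6' := abs_le.1 v6
  have e3 : r * (s₁ + Cr * φ + 4 * φ) = r * s₁ + r * (Cr * φ + 4 * φ) := by ring
  have e4 : r * (Cr * φ + 4 * φ) ≤ Cr * φ + 4 * φ := by
    have : r * (Cr * φ + 4 * φ) ≤ 1 * (Cr * φ + 4 * φ) :=
      mul_le_mul_of_nonneg_right hr1 (by linarith)
    linarith
  have e5 : 0 ≤ r * (Cr * φ + 4 * φ) := mul_nonneg hr0.le (by linarith)
  rw [e3] at v5' v6'
  have hφb : 0 < φ / be := by positivity
  have ebe : be * (φ / be) = φ := by field_simp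
  obtain ⟨vq, q1, q2⟩ := exists_rat_btwn (show v < v + φ / be by linarith)
  have q3 : be * (vq - w) ≤ be * (v - w) + φ := by
    have : be * (vq - w) ≤ be * (v + φ / be - w) := mul_le_mul_of_nonneg_left (by linarith) hbe.le
    have e6 : be * (v + φ / be - w) = be * (v - w) + be * (φ / be) := by ring
    rw [e6, ebe] at this
    exact this
  obtain ⟨yq, y1, y2⟩ := exists_rat_btwn (show w + (r * s₂ - 2 * η - φ) / be <
    w + (r * s₂ - 2 * η) / be by
      have : (r * s₂ - 2 * η - φ) / be < (r * s₂ - 2 * η) / be :=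
        (div_lt_div_iff_of_pos_right hbe).2 (by linarith)
      linarith)
  have y3 : r * s₂ - 2 * η - φ ≤ be * (yq - w) := by
    have : be * ((r * s₂ - 2 * η - φ) / be) ≤ be * (yq - w) :=
      mul_le_mul_of_nonneg_left (by linarith) hbe.le
    have e6 : be * ((r * s₂ - 2 * η - φ) / be) = r * s₂ - 2 * η - φ := by field_simp
    rw [e6] at this
    exact this
  have y4 : be * (yq - w) ≤ r * s₂ - 2 * η := by
    have : be * (yq - w) ≤ be * ((r * s₂ - 2 * η) / be) :=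
      mul_le_mul_of_nonneg_left (by linarith) hbe.le
    have e6 : be * ((r * s₂ - 2 * η) / be) = r * s₂ - 2 * η := by field_simp
    rw [e6] at this
    exact this
  have hvy : (vq : ℝ) ≤ yq := by
    have : be * (vq - w) ≤ be * (yq - w) := by linarith
    have := le_of_mul_le_mul_left this hbe
    linarith
  have hvq : (v : ℝ) ≤ vq := q1.le
  have hrs : r * s₂ ≤ s₂ := by
    have : r * s₂ ≤ 1 * s₂ := mul_le_mul_of_nonneg_right hr1 (h1.trans h12)
    linarith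
  have hys : (yq : ℝ) - w ≤ s₂ := by
    have a1 : 0 ≤ (yq : ℝ) - w := by linarith
    have a2 : 1 * ((yq : ℝ) - w) ≤ be * (yq - w) := mul_le_mul_of_nonneg_right hb1 a1
    linarith
  have l1 := abs_le.1 (X.lamt vq (by linarith) (by linarith))
  have l2 := abs_le.1 (X.lamt yq (by linarith) (by linarith))
  exact ⟨v, vq, yq, {
    vG := hv
    wv := v1
    vo := v2
    vs := by
      have : (Cr + 5) * φ = Cr * φ + 5 * φ := by ring
      linarith
    al1 := by linarith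
    al2 := by
      have : (Cr + 8) * φ = Cr * φ + 8 * φ := by ring
      linarith
    sv1 := by linarith
    vvq := hvq
    vq1 := by
      have : (Cr + 8) * φ = Cr * φ + 8 * φ := by ring
      linarith
    lvq := by
      have : (Cr + 9) * φ = Cr * φ + 9 * φ := by ring
      linarith
    vy := by exact_mod_cast hvy
    yq1 := y3
    yq2 := y4
    yqs := hys
    lyq := by
      rw [abs_le]
      constructor <;> linarith }⟩

/-- **The row, class level.** -/
theorem XR0.row_cls (X : XR0 S c k sn G al be h w o u Λ φ lam) (hΛ : 1 ≤ Λ)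
    (hφ : 10 * φ ≤ u) {s₁ s₂ Cr η v : ℝ} {vq yq w₁ : ℚ} (hCr : 100 * ((k : ℝ) + 3) ^ 2 ≤ Cr)
    (W : XWn k sn G (be / al) be w o s₁ s₂ φ Cr η lam v vq yq) (hs1 : 0 ≤ s₁)
    (hs12 : s₁ + 20 * φ ≤ s₂) (hη : Cr * φ ≤ η) (hs2 : s₂ + 10 * (Cr * φ) + 2 * η ≤ Λ * u)
    (hr : be / al * s₁ + (Cr + 10) * φ + 2 * η ≤ be / al * s₂) (hw : w ≤ w₁) (hwv : w₁ ≤ v)
    {π₀ ε : ℝ} (hπ : 0 < π₀) (hε : 0 < ε) : ∃ e₀ : ℝ, 0 < e₀ ∧ ∀ K : ℕ,
    Bas S (fun J F A => ∀ uV u₁ u₂,
      (qJets m c 0 k 0 (fun _ _ => w) (fun l _ => sn l w - φ)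
        (fun l _ => nVx sn w s₂ Cr φ l)).P K e₀ J F A uV →
      (qTg m c k (1 + 1) w (prx k sn w φ) (P1x k sn w (be / al) s₁ Cr φ)).P K e₀ J F A u₁ →
      (qTg m c k (1 + 1) w (prx k sn w φ) (P2x k sn w s₂ lam yq)).P K e₀ J F A u₂ →
      ∀ B : F.Ω → Prop, Sub B A → π₀ * Pe F.p A ≤ Pe F.p B →
      CH (Pool.Agent.H49.Ent.cond F.p B True) (fun ω => u₂ ω 0)
          (fun ω => (u₂ ω 1, ((u₁ ω 0, u₁ ω 1), (uV ω, (cR F A w₁ ω, F.W ω))))) ≤
        (((1 - h) * (lam yq - (sn (k + 1) w + be / al * s₁ - (Cr + 4) * φ)) + (s₂ - s₁)) *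
          Real.log 2 + φ + 16 * Cr * φ + ε) * J -
          CH (Pool.Agent.H49.Ent.cond F.p B True) (fun ω => u₂ ω 1)
            (fun ω => ((fun l : Fin k => F.X J ω (c l)), (cR F B v ω, F.W ω)))) := by
  have hu := X.u0
  have hb1 := X.be1
  have hba := X.bal
  have hφ0 := X.lad.φ0
  have hal : 0 < al := by linarith
  have hr1 : be / al ≤ 1 := (div_le_one hal).2 hba
  have hr0 : 0 ≤ be / al := by positivity
  have hbw : w ≤ w := le_rfl
  have hwo := X.wo
  have ho1 := X.o1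
  have hk0 : (0 : ℝ) ≤ k := Nat.cast_nonneg k
  have hΛu : u ≤ Λ * u := le_mul_of_one_le_left hu.le hΛ
  have hlev := X.lev
  have Lb := X.lad.toLadR.lad
  obtain ⟨r, hr'⟩ : ∃ r, r = be / al := ⟨_, rfl⟩
  rw [← hr'] at hr1 hr0 hr W ⊢
  have hCk : 100 * (k * φ) + 900 * φ ≤ Cr * φ := by
    have : 100 * (k * φ) + 900 * φ = (100 * (k : ℝ) + 900) * φ := by ring
    rw [this]
    refine mul_le_mul_of_nonneg_right (le_trans ?_ hCr) hφ0.le
    nlinarith
  have hkφ : 0 ≤ (k : ℝ) * φ := by positivity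
  have e1 : (Cr + 10) * φ = Cr * φ + 10 * φ := by ring
  have e2 : (Cr + 4) * φ = Cr * φ + 4 * φ := by ring
  have e3 : (3 * Cr + 10) * φ = 3 * (Cr * φ) + 10 * φ := by ring
  have e5 : (Cr + 8) * φ = Cr * φ + 8 * φ := by ring
  have e6 : (Cr + 5) * φ = Cr * φ + 5 * φ := by ring
  have hrs : r * s₂ ≤ s₂ := by
    have : r * s₂ ≤ 1 * s₂ := mul_le_mul_of_nonneg_right hr1 (by linarith)
    linarith
  have hrs1 : 0 ≤ r * s₁ := mul_nonneg hr0 hs1
  have hbw' : w ≤ w := le_rfl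
  have hwo' : w ≤ o := by linarith
  obtain ⟨w1, w2, w3, w4, w5, w6, w7, w8, w9, w10, w11, w12, w13, w14, w15⟩ := W
  rw [e5] at w6 w9
  rw [e6] at w4
  have w15' := abs_le.1 w15
  rw [e1] at hr
  -- the windows of the row
  obtain ⟨x, hx, x1, x2, x3, x3', x4, x5, x6⟩ := X.win hΛ hφ (s := s₂ + Cr * φ + 4 * φ)
    (by linarith) (by linarith)
  rw [← hr'] at x5 x6
  have x4' := abs_le.1 x4
  have x5' := abs_le.1 x5
  have x7 : r * s₂ ≤ r * (s₂ + Cr * φ + 4 * φ) := mul_le_mul_of_nonneg_left (by linarith) hr0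
  obtain ⟨x', hx', x8⟩ := X.lad.toLadR.gap (w + (s₂ + 3 * (Cr * φ))) (by linarith) (by linarith)
  have x8' := abs_le.1 x8
  have hvx : v ≤ x := by
    have l0 := abs_le.1 (X.lin0 v w1 (by linarith) w3)
    have : al * (v - w) ≤ al * (x - w) := by linarith
    have := le_of_mul_le_mul_left this hal
    linarith
  have hxo : x' ≤ o := by linarith
  have hbx' : w ≤ x' := by linarith
  obtain ⟨rk, E₁, hrk, hE₁, hatt, hE2⟩ := X.att
  obtain ⟨η', hη'⟩ := X.rn w₁
  have p10 : P1x k sn w r s₁ Cr φ 0 = sn k w + s₁ := if_pos rfl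
  have p11 : P1x k sn w r s₁ Cr φ 1 = sn (k + 1) w + r * s₁ - (Cr + 4) * φ := if_neg one_ne_zero
  have p20 : P2x k sn w s₂ lam yq 0 = sn k w + s₂ := if_pos rfl
  have p21 : P2x k sn w s₂ lam yq 1 = lam yq := if_neg one_ne_zero
  obtain ⟨lk1, lk2, lk3⟩ := hlev k (by omega)
  obtain ⟨ln1, ln2, ln3⟩ := hlev (k + 1) le_rfl
  have hfx : ∀ i < k, sn i x' ≤ sn i w + (x' - w) + 2 * φ := fun i hi => by
    have := (abs_le.1 (Lb.flat hi hx' X.wG hbx' hxo hbw' hwo')).2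
    linarith
  have hfb : ∀ i < k, sn i w + w ≤ sn i w + w + 2 * φ ∧ sn i w + w ≤ sn i w + w + 2 * φ :=
    fun i hi => by
    have := abs_le.1 (Lb.flat hi X.wG Lb.bG hbw' hwo' le_rfl Lb.bo)
    constructor <;> linarith
  obtain ⟨e₀, he₀, H⟩ := ex_row X.lad X.img (w := w) (w₁ := w₁) (v := v) (x := x) (x' := x')
    (p := fun l => sn l w - φ) (n := nVx sn w s₂ Cr φ) (pr := prx k sn w φ)
    (P₁ := P1x k sn w r s₁ Cr φ) (P₂ := P2x k sn w s₂ lam yq) (E₁ := E₁) (h := h) (δ := φ) hCr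
    X.wG w1 hx hx' hbw' hw hwv hvx (by linarith) hxo (by linarith) (fun i _ => le_rfl)
    (fun t _ => le_rfl)
    (fun i hi => by
      have := hfx i hi
      have := hlev i (by omega)
      unfold nVx
      rw [e3]
      constructor <;> linarith)
    ⟨fun i hi => by
      have := hfb i hi
      unfold nVx
      rw [e3]
      have : 20 * ((k : ℝ) + 1) * φ = 20 * (k * φ) + 20 * φ := by ring
      rw [this]
      linarith, fun i hi l hl => by
      have a1 := hfb i hi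
      have a2 := hfb l (hl.trans hi)
      have a3 := hlev l (by omega)
      unfold nVx
      rw [e3]
      have : 20 * ((k : ℝ) + 1) * φ = 20 * (k * φ) + 20 * φ := by ring
      rw [this]
      linarith⟩
    (fun t ht => by
      rcases Nat.lt_or_ge t 1 with h1 | h1
      · obtain rfl : t = 0 := by omega
        rw [p10, p20]
        show 0 ≤ sn k w + s₁ ∧ sn k w + s₁ ≤ sn k w + s₂ ∧ sn k w + s₂ ≤ 1 ∧
          sn k w + s₁ + Cr * φ ≤ sn k v ∧ sn k w + s₂ + Cr * φ ≤ sn k x ∧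
          sn k w + s₂ + Cr * φ ≤ sn k w + (x' - w)
        refine ⟨by linarith, by linarith, by linarith, by linarith, by linarith, by linarith⟩
      · obtain rfl : t = 1 := by omega
        rw [p11, p21, e2]
        refine ⟨by linarith, by linarith, by linarith, by linarith, by linarith, by linarith⟩)
    (by
      rw [p20]
      have : 2 * Cr * φ = 2 * (Cr * φ) := by ring
      rw [this]
      linarith)
    (fun t ht l hl => by
      rcases Nat.lt_or_ge t 1 with h1 | h1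
      · obtain rfl : t = 0 := by omega
        rw [p20]
        show sn k w + s₂ + Cr * φ ≤ sn k w + (1 - sn l w)
        have := hlev l (by omega)
        linarith
      · obtain rfl : t = 1 := by omega
        rw [p21]
        have := hlev l (by omega)
        linarith)
    ⟨rk, hrk, hE₁, hatt, by
      rw [p21]
      linarith⟩
    (by
      rw [p11, p21]
      refine X.row _ _ ?_ ?_ ?_
      · rw [abs_le, e2]
        constructor <;> linarith
      · rw [abs_le]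
        constructor <;> linarith
      · rw [e2]
        linarith)
    hη' hπ hε
  refine ⟨e₀, he₀, fun K => ?_⟩
  refine Bas.mono 0 (H K) ?_
  rintro J - F A H uV u₁ u₂ hV h1 h2 B hB hm
  have key := H uV u₁ u₂ hV h1 h2 B hB hm
  rw [p10, p11, p20, p21] at key
  refine key.trans (le_of_eq ?_)
  ring

end Pool.NA98
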