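import Pool.Agent.H98.NA.X0

/-!
# The exchanged row

`ex_row2`, `XR0.row_cls2`: the row of the last place given the far digits of the place `k`.
`ful_k`: the digits of the place `k` are full over the exact positions of the slope-one places and
the record of a window.
-/

set_option autoImplicit false

namespace Pool.NA98

open Finset Real MvPolynomial
open Pool.Agent.H49.Ent Pool.Agent.H32.Dense
open Pool.STK hiding pr2
open Pool.KA Pool.KSAT Pool.K2S Pool.PB Pool.S6C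
open Pool.GEN Pool.CHT Pool.CHX Pool.ISO Pool.LA91 Pool.AVG71 Pool.AVG5 Pool.D2F2 Pool.AVG57
open Pool.RCD Pool.AVG96 Pool.OWN68 Pool.V0F Pool.VA83 Pool.XR71 Pool.V0T
open Pool.AJW (CfB)
open Pool.UNJ (ceI)
open Pool.KVA (MI)
open Pool.VG83 (cl_cR det_cR2)

variable {m : ℕ} {S : PCl m} {c : ℕ → Fin m} {k : ℕ} {sn sp : ℕ → ℝ → ℝ} {G : Set ℝ}
  {al be h b o w u Λ φ e : ℝ} {lam : ℝ → ℝ}

/-- **The digits of the place** `k` **are full** over the exact positions of the slope-one places and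
the record of the window `v`. -/
theorem ful_k (L : LadV S c k 1 sn G b o φ) {w v pr P : ℝ} (hw : w ∈ G) (hv : v ∈ G) (hwv : w ≤ v)
    (hvo : v ≤ o) (hpr : sn k w - φ ≤ pr) (hP0 : 0 ≤ P) (hP1 : P ≤ 1)
    (t0 : P + 40 * ((k : ℝ) + 1) * φ ≤ sn k w + (1 - w))
    (t1 : ∀ l < k, P + 40 * ((k : ℝ) + 1) * φ ≤ sn k w + (1 - sn l w))
    {π₀ : ℝ} (hπ : 0 < π₀) {ε : ℝ} (hε : 0 < ε) :
    ∃ e₀ : ℝ, 0 < e₀ ∧ ∀ K : ℕ, Bas S (fun J F A => ∀ u₂,
      (qJet m ((range k).image c) (c k) 0 w pr P).P K e₀ J F A u₂ →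
      ∀ B : F.Ω → Prop, Sub B A → π₀ * Pe F.p A ≤ Pe F.p B →
      ((P - sn k v) * Real.log 2 - ε) * J ≤ CH (Pool.Agent.H49.Ent.cond F.p B True) u₂
        (fun ω => ((fun l : Fin k => F.X J ω (c l)), (cR F B v ω, F.W ω)))) := by
  have hφ := L.φ0
  have hv1 : v ≤ 1 := hvo.trans L.o1.le
  have hl2 : 0 < Real.log 2 := Real.log_pos one_lt_two
  have hl1 : Real.log 2 ≤ 1 := by
    have := Real.log_two_lt_d9
    linarith
  have hk0 : (0 : ℝ) ≤ k := Nat.cast_nonneg k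
  obtain ⟨ρ, hρ⟩ : ∃ ρ : ℝ, ρ = ε / 8 := ⟨_, rfl⟩
  have hρ0 : 0 < ρ := by rw [hρ]; positivity
  have e20 : 20 * (((k + 1 : ℕ) : ℝ) + 1) * φ ≤ 40 * ((k : ℝ) + 1) * φ := by
    push_cast
    nlinarith [mul_nonneg hk0 hφ.le]
  obtain ⟨κ, hκ, e₀, he₀, H⟩ := exj_base (L.one hw) (i := k) (w := w) (pr := pr) (N := P) (by omega)
    (Set.mem_singleton w) hpr hP0 hP1 (by linarith) (fun l hl => by linarith [t1 l hl]) ρ hρ0
  obtain ⟨u₁', rd, -, hch⟩ := L.ch.ch v hv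
  obtain ⟨J₁, hJ₁⟩ := exists_nat_ge (1 / ρ)
  refine ⟨e₀, he₀, fun K => Bas.mono J₁ ((Pool.VG83.bas_ev ((H K).and (hch.ful ρ hρ0)) hπ).and
    (pos_bas L.pos)) ?_⟩
  rintro J hJ F A ⟨H, hA⟩ u₂ hu₂ B hB hPB
  have hJ0 : (0 : ℝ) ≤ J := Nat.cast_nonneg J
  have h1J : 1 ≤ ρ * J := by
    have hJ1 : (J₁ : ℝ) ≤ J := by exact_mod_cast hJ
    have := hJ₁.trans hJ1
    rw [div_le_iff₀ hρ0] at this
    linarith
  have hB0 : 0 < Pe F.p B := lt_of_lt_of_le (mul_pos hπ hA) hPB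
  have hcl := isLaw_cond F.isLaw hB0
  have h0 := hcl.nonneg
  have hpB : ∀ ω, 0 < Pool.Agent.H49.Ent.cond F.p B True ω → B ω := fun ω hω => cond_pos hω
  obtain ⟨H1, H2⟩ := H B hB hPB
  have c1 := (H1 _ (cR F B w) (mx_cR hB0 w hκ.le) u₂ ((qJet m _ _ _ _ _ _).sub hB hu₂)).2
  obtain ⟨⟨ψp, hψp⟩, ψ, hψ⟩ := cl_cR F B v
  have c2 := H2 _ ψp (fun s => ψ s) (fun ω hω => by
    rw [← hψp ω hω]
    exact hψ ω hω) k (Nat.zero_le _) (by omega)
  obtain ⟨X, hXd⟩ : ∃ X : F.Ω → Fin k → ℤ, X = fun ω (l : Fin k) => F.X J ω (c l) := ⟨_, rfl⟩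
  have hXe : ∀ ω ω', X ω = X ω' → ceI ((range k).image c) (fun _ => J) (F.x ω) =
      ceI ((range k).image c) (fun _ => J) (F.x ω') := fun ω ω' e =>
    ceI_tup le_rfl fun l hl => by
      rw [hXd] at e
      exact congrFun e ⟨l, hl⟩
  have hwv' : Det (Pool.Agent.H49.Ent.cond F.p B True) (cR F B v) (cR F B w) :=
    det_cR2 (fun _ h => h) hwv hv1 hpB
  have c3 : CH (Pool.Agent.H49.Ent.cond F.p B True) (fun ω => F.X ⌊P * J⌋₊ ω (c k))
      (fun ω => (u₂ ω, (X ω, (cR F B v ω, F.W ω)))) ≤ ρ * J := by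
    refine le_trans (CH_mono_cond h0 fun ω ω' hω hω' e => ?_) c1
    simp only [Prod.mk.injEq] at e ⊢
    exact ⟨e.1, hXe ω ω' e.2.1, hwv' ω ω' hω hω' e.2.2.1, e.2.2.2⟩
  have c4 : ((1 - sn k v) - ρ) * Real.log 2 * J ≤ CH (Pool.Agent.H49.Ent.cond F.p B True)
      (fun ω => F.X J ω (c k)) (fun ω => (X ω, (cR F B v ω, F.W ω))) := by
    refine c2.trans ?_
    refine CH_mono_cond h0 fun ω ω' hω hω' e => ?_
    simp only [Prod.mk.injEq] at e ⊢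
    refine ⟨by rw [hXd]; exact e.1, ?_, e.2.2⟩
    have e1 := hψ ω (hpB ω hω)
    have e2 := hψ ω' (hpB ω' hω')
    exact e1.trans (e.2.1.trans e2.symm)
  have hfl : ⌊P * (J : ℝ)⌋₊ ≤ J := floor_le hP1 J
  have s1 := CH_le_add h0 (fun ω => F.X J ω (c k)) u₂ (fun ω => (X ω, (cR F B v ω, F.W ω)))
  have s2 := CH_le_add h0 (fun ω => F.X J ω (c k)) (fun ω => F.X ⌊P * J⌋₊ ω (c k))
    (fun ω => (u₂ ω, (X ω, (cR F B v ω, F.W ω))))
  have s3 := X_more hcl hfl (c k) fun ω => (u₂ ω, (X ω, (cR F B v ω, F.W ω)))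
  have s6 : ((J : ℝ) - ⌊P * J⌋₊) * Real.log 2 ≤ (1 - P) * Real.log 2 * J + ρ * J := by
    have e1 := Nat.lt_floor_add_one (P * (J : ℝ))
    have e2 : ((J : ℝ) - ⌊P * J⌋₊) * Real.log 2 ≤ ((1 - P) * J + 1) * Real.log 2 :=
      mul_le_mul_of_nonneg_right (by linarith) hl2.le
    have e3 : 1 * Real.log 2 ≤ ρ * J := by linarith
    linarith
  have e1 : ρ * Real.log 2 * J ≤ ρ * J := by
    have := mul_le_mul_of_nonneg_left hl1 (mul_nonneg hρ0.le hJ0)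
    linarith
  have e6 : ((P - sn k v) * Real.log 2 - ε) * J =
      ((1 - sn k v) - ρ) * Real.log 2 * J - (1 - P) * Real.log 2 * J +
        ρ * Real.log 2 * J - 8 * (ρ * J) := by
    rw [hρ]
    ring
  have e7 : 0 ≤ ρ * J := by positivity
  rw [hXd] at s1 s2 s3 c3 c4
  rw [e6]
  linarith

/-- **The exchange on parts of large events**, the last place given the first one. `P₁`, `P₂`: near and far digits of the heights, `v`: a
window at which the near digits are natural, `n`: the digits of the slope-one places. -/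
theorem ex_row2 (L : LadV S c k 1 sn G b o φ) (hI : (range (k + 1)).image c = univ.erase (c (k + 1)))
    {w w₁ v x x' η Cr E₁ h δ : ℝ} {p n pr P₁ P₂ : ℕ → ℝ} (hCr : 100 * ((k : ℝ) + 3) ^ 2 ≤ Cr)
    (hw : w ∈ G) (hv : v ∈ G) (hx : x ∈ G) (hx' : x' ∈ G) (hbw : b ≤ w) (hw1 : w ≤ w₁)
    (hwv : w₁ ≤ v) (hvx : v ≤ x) (hxx : x + Cr * φ ≤ x') (hxo : x' ≤ o) (hx1 : x' + Cr * φ ≤ 1)
    (hp : ∀ i < k, sn i b - φ ≤ p i) (hpr : ∀ u ≤ 1, sn (k + u) w - φ ≤ pr u)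
    (hn : ∀ i < k, sn i x' ≤ n i ∧ n i ≤ 1) (tp : Tp k sn b φ n)
    (hP : ∀ u ≤ 1, 0 ≤ P₁ u ∧ P₁ u ≤ P₂ u ∧ P₂ u ≤ 1 ∧ P₁ u + Cr * φ ≤ sn (k + u) v ∧
      P₂ u + Cr * φ ≤ sn (k + u) x ∧ P₂ u + Cr * φ ≤ sn (k + u) w + (x' - w))
    (hPn : sn k x ≤ P₂ 0 + 2 * Cr * φ)
    (hPl : ∀ u ≤ 1, ∀ l < k + u, P₂ u + Cr * φ ≤ sn (k + u) w + (1 - sn l w))
    (hatt : ∃ rk : ℝ, rk < 1 ∧ 0 ≤ E₁ ∧
      AttG S ((range (k + 1)).image c) (c (k + 1)) w (sn (k + 1) w) rk E₁ ∧ P₂ 1 + E₁ ≤ 1)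
    (hraw : RawN S (univ.erase (c (k + 1))) (c (k + 1)) (P₁ 1) (P₂ 1 - P₁ 1) h δ)
    (hη : RNum S (fun J F => ptr F J) (vg w₁) η) {π₀ ε : ℝ} (hπ : 0 < π₀) (hε : 0 < ε) :
    ∃ e₀ : ℝ, 0 < e₀ ∧ ∀ K : ℕ, Bas S (fun J F A => ∀ u u₁ u₂,
      (qJets m c 0 k 0 (fun _ _ => b) (fun l _ => p l) (fun l _ => n l)).P K e₀ J F A u →
      (qTg m c k (1 + 1) w pr P₁).P K e₀ J F A u₁ → (qTg m c k (1 + 1) w pr P₂).P K e₀ J F A u₂ →
      ∀ B : F.Ω → Prop, Sub B A → π₀ * Pe F.p A ≤ Pe F.p B →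
      CH (Pool.Agent.H49.Ent.cond F.p B True) (fun ω => u₂ ω 1)
          (fun ω => (u₂ ω 0, ((u₁ ω 1, u₁ ω 0), (u ω, (cR F A w₁ ω, F.W ω))))) ≤
        (((1 - h) * (P₂ 1 - P₁ 1) + (P₂ 0 - P₁ 0)) * Real.log 2 + δ + 16 * Cr * φ + ε) * J -
          CH (Pool.Agent.H49.Ent.cond F.p B True) (fun ω => u₂ ω 0)
            (fun ω => ((fun l : Fin k => F.X J ω (c l)), (cR F B v ω, F.W ω)))) := by
  have hφ := L.φ0
  have hk0 : (0 : ℝ) ≤ k := Nat.cast_nonneg k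
  have hkφ : 0 ≤ (k : ℝ) * φ := by positivity
  have hC' : 200 * (k * φ) + 400 * φ ≤ Cr * φ := by
    have : 200 * (k * φ) + 400 * φ = (200 * (k : ℝ) + 400) * φ := by ring
    rw [this]
    refine mul_le_mul_of_nonneg_right (le_trans ?_ hCr) hφ.le
    nlinarith
  have hCr' : 100 * ((k : ℝ) + ((1 : ℕ) : ℝ) + 2) ^ 2 ≤ Cr := by
    push_cast
    have : (k : ℝ) + 1 + 2 = k + 3 := by ring
    rw [this]
    exact hCr
  have Lb := L.toLadR.lad
  have hwv' : w ≤ v := hw1.trans hwv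
  have hwx : w ≤ x := hwv'.trans hvx
  have hxo' : x ≤ o := by linarith
  have hbx' : b ≤ x' := by linarith
  have hv1 : v ≤ 1 := by linarith [L.o1]
  have hw₁1 : w₁ ≤ 1 := hwv.trans hv1
  obtain ⟨ρ, hρ⟩ : ∃ ρ : ℝ, ρ = ε / 16 := ⟨_, rfl⟩
  have hρ0 : 0 < ρ := by rw [hρ]; positivity
  obtain ⟨rk, hrk, hE, hatt, hPE⟩ := hatt
  -- the joint rows
  obtain ⟨k₁, hk₁, e₁, he₁, H₁⟩ := rowv L hI hCr' hw hx hx' hbw hwx hxx hxo hx1 hp hpr hn tp
    (fun u hu => by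
      obtain ⟨a1, a2, a3, -, a5, a6⟩ := hP u hu
      exact ⟨a1, a2, a3, a5, a6⟩) (fun u hu => by
      obtain rfl : u = 0 := by omega
      exact hPn) hPl hrk hE hatt hPE hraw hρ0
  -- the near digits
  obtain ⟨k₂, hk₂, e₂, he₂, H₂⟩ := near_v L (x' := x') (P := P₁) hCr hw hv hx' hbw hwv'
    (by linarith) hxo hx1 (fun l hl => (hn l hl).1.trans (hn l hl).2) hpr (fun u hu => by
      obtain ⟨a1, a2, a3, a4, a5, a6⟩ := hP u hu
      exact ⟨a1, a2.trans a3, a4, by linarith⟩) (fun u hu l hl => by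
      have := hPl u hu l hl
      linarith [(hP u hu).2.1]) ⟨rk, hrk, hE, hatt, by linarith [(hP 1 le_rfl).2.1]⟩ hρ0
  -- the slope-one places
  have hbn : ∀ i < k, sn i b ≤ n i ∧ n i ≤ 1 := fun i hi => by
    have h1 := abs_le.1 (Lb.flat hi L.bG hx' le_rfl (L.bo) hbx' hxo)
    obtain ⟨h2, h3⟩ := hn i hi
    exact ⟨by linarith [h1.2], h3⟩
  obtain ⟨k₃, hk₃, e₃, he₃, H₃⟩ := fux Lb L.bG le_rfl L.bo hp hbn tp ρ hρ0
  obtain ⟨e₀, he₀, f1, f2, f3⟩ : ∃ e₀ : ℝ, 0 < e₀ ∧ e₀ ≤ e₁ ∧ e₀ ≤ e₂ ∧ e₀ ≤ e₃ := by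
    refine ⟨min e₁ (min e₂ e₃), by positivity, ?_, ?_, ?_⟩ <;>
      simp only [min_le_iff, le_refl, true_or, or_true]
  obtain ⟨κ, hκ, g0⟩ : ∃ κ : ℝ, 0 < κ ∧ κ ≤ ρ := ⟨ρ, hρ0, le_rfl⟩
  refine ⟨e₀, he₀, fun K => ?_⟩
  refine Bas.mono 0 (((Pool.VG83.bas_ev (H₁ K) hπ).and (Pool.VG83.bas_ev ((H₂ 0 (by omega) K).and
    (H₂ 1 (by omega) K)) hπ)).and (((Pool.VG83.bas_ev (H₃ K) hπ).and (Pool.VG83.mx_ev L.pos hη hκ hπ)).and
    (pos_bas L.pos))) ?_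
  rintro J - F A ⟨⟨H₁, H₂⟩, ⟨H₃, H₄⟩, hA⟩ u u₁ u₂ hu hu₁ hu₂ B hB hPB
  have hB0 : 0 < Pe F.p B := lt_of_lt_of_le (mul_pos hπ hA) hPB
  have hJ0 : (0 : ℝ) ≤ J := Nat.cast_nonneg J
  have hcl := isLaw_cond F.isLaw hB0
  have h0 := hcl.nonneg
  have hzm := H₄ B hB hPB
  -- records of the part
  have rw' := mx_cR hB0 w hk₁.le
  have rv := mx_cR hB0 v hk₂.le
  have rv' : Mx (fun J F => ptr F J) (vg v) κ F B (cR F B v) := mx_cR hB0 v hκ.le
  have rb := mx_cR hB0 b hk₃.le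
  have d1 : CH (Pool.Agent.H49.Ent.cond F.p B True) (cR F B w) (cR F A w₁) ≤ κ * J :=
    mx_before hzm hw1 hw₁1 rw'.1
  have d2 : CH (Pool.Agent.H49.Ent.cond F.p B True) (cR F A w₁) (cR F B v) ≤ κ * J :=
    mx_before rv' hwv hv1 hzm.1
  have d3 : CH (Pool.Agent.H49.Ent.cond F.p B True) (cR F B b) (cR F A w₁) ≤ κ * J :=
    mx_before hzm (hbw.trans hw1) hw₁1 rb.1
  have hκJ : κ * J ≤ ρ * J := mul_le_mul_of_nonneg_right g0 hJ0
  -- the inequalities on the part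
  have q0 := (qJets m c 0 k 0 _ _ _).sub hB hu
  have q1 := (qTg m c k (1 + 1) w pr P₁).sub hB hu₁
  have q2 := (qTg m c k (1 + 1) w pr P₂).sub hB hu₂
  have a1 := H₁ B hB hPB _ (cR F B w) rw' u u₁ u₂ ((qJets m c 0 k 0 _ _ _).mono le_rfl f1 q0)
    ((qTg m c k (1 + 1) w pr P₁).mono le_rfl f1 q1) ((qTg m c k (1 + 1) w pr P₂).mono le_rfl f1 q2)
  obtain ⟨b1, b2⟩ := H₂ B hB hPB
  have c1 := ((b1 (fun ω => u₁ ω 0) (fun ω => u₁ ω 0)
    ((qJet m _ _ _ _ _ _).mono le_rfl f2 (q1 0)) ((qJet m _ _ _ _ _ _).mono le_rfl f2 (q1 0))).2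
    _ (cR F B v) rv).1
  have c2 := ((b2 (fun ω => u₁ ω 1) (fun ω => u₁ ω 1)
    ((qJet m _ _ _ _ _ _).mono le_rfl f2 (q1 1)) ((qJet m _ _ _ _ _ _).mono le_rfl f2 (q1 1))).2
    _ (cR F B v) rv).1
  have c3 := (H₃ B hB hPB _ (cR F B b) rb u ((qJets m c 0 k 0 _ _ _).mono le_rfl f3 q0)).2.2 _
    (cR F B b) rb
  have c4 : CH (Pool.Agent.H49.Ent.cond F.p B True) u
      (fun ω => ((fun l : Fin k => F.X J ω (c l)), (cR F A w₁ ω, F.W ω))) ≤ 2 * (ρ * J) := by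
    have := CH_tr h0 u (A := cR F B b) (W := fun ω => ((fun l : Fin k => F.X J ω (c l)),
      (cR F A w₁ ω, F.W ω))) (le_trans (CH_mono_cond h0 fun ω ω' _ _ e => by
        simp only [Prod.mk.injEq] at e
        exact e.2.1) d3) c3 fun ω ω' _ _ e => by
          simp only [Prod.mk.injEq] at e ⊢
          tauto
    linarith
  -- the joint row over the record of the row
  have a2 : CH (Pool.Agent.H49.Ent.cond F.p B True) (fun ω => (u₂ ω 1, u₂ ω 0))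
      (fun ω => ((u₁ ω 1, u₁ ω 0), (u ω, (cR F A w₁ ω, F.W ω)))) ≤
      (((1 - h) * (P₂ 1 - P₁ 1) + (P₂ 0 - P₁ 0)) * Real.log 2 + δ + 16 * Cr * φ + ρ) * J +
        ρ * J := by
    have e1 : CH (Pool.Agent.H49.Ent.cond F.p B True) (fun ω => (u₂ ω 1, u₂ ω 0))
        (fun ω => ((u₁ ω 1, u₁ ω 0), (u ω, (cR F A w₁ ω, F.W ω)))) ≤
        CH (Pool.Agent.H49.Ent.cond F.p B True) u₂
          (fun ω => (u₁ ω, (u ω, (cR F A w₁ ω, F.W ω)))) := by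
      refine (CH_mono_left h0 (X' := u₂) fun ω ω' _ _ e => ?_).trans
        (CH_mono_cond h0 fun ω ω' _ _ e => ?_)
      · have e1 := (Prod.ext_iff.mp e).1
        exact Prod.ext (congrFun e1 1) (congrFun e1 0)
      · simp only [Prod.mk.injEq] at e ⊢
        refine ⟨funext fun i => ?_, e.2⟩
        fin_cases i
        · exact e.1.2
        · exact e.1.1
    have e2 := CH_le_add h0 u₂ (cR F B w) (fun ω => (u₁ ω, (u ω, (cR F A w₁ ω, F.W ω))))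
    have e3 : CH (Pool.Agent.H49.Ent.cond F.p B True) (cR F B w)
        (fun ω => (u₁ ω, (u ω, (cR F A w₁ ω, F.W ω)))) ≤ κ * J :=
      le_trans (CH_mono_cond h0 fun ω ω' _ _ e => by
        simp only [Prod.mk.injEq] at e
        exact e.2.2.1) d1
    have e4 : CH (Pool.Agent.H49.Ent.cond F.p B True) u₂
        (fun ω => (cR F B w ω, (u₁ ω, (u ω, (cR F A w₁ ω, F.W ω))))) ≤
        CH (Pool.Agent.H49.Ent.cond F.p B True) u₂
          (fun ω => (u₁ ω, (u ω, (cR F B w ω, F.W ω)))) :=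
      CH_mono_cond h0 fun ω ω' _ _ e => by
        simp only [Prod.mk.injEq] at e ⊢
        exact ⟨e.2.1, e.2.2.1, e.1, e.2.2.2.2⟩
    have e5 : (((1 - h) * (P₂ 1 - P₁ 1) + ∑ u ∈ range 1, (P₂ u - P₁ u)) * Real.log 2 + δ +
        8 * (((1 : ℕ) : ℝ) + 1) * Cr * φ + ρ) * J =
        (((1 - h) * (P₂ 1 - P₁ 1) + (P₂ 0 - P₁ 0)) * Real.log 2 + δ + 16 * Cr * φ + ρ) * J := by
      rw [Finset.sum_range_one]
      push_cast
      ring
    rw [e5] at a1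
    linarith
  have key := ex_tr h0 (u₁ := fun ω => u₁ ω 1) (u₂ := fun ω => u₂ ω 1) (n₁ := fun ω => u₁ ω 0)
    (n₂ := fun ω => u₂ ω 0) (V := u) (z := cR F A w₁) (Rv := cR F B v)
    (XV := fun ω => fun l : Fin k => F.X J ω (c l)) (y := F.W) (e := 2 * (ρ * J)) a2
    (by
      have : 0 ≤ ρ * J := by positivity
      linarith) (by
      have : 0 ≤ ρ * J := by positivity
      linarith) (by
      have : 0 ≤ ρ * J := by positivity
      linarith) c4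
  refine key.trans (le_of_eq_of_le ?_ (sub_le_sub_right (?_ : (((1 - h) * (P₂ 1 - P₁ 1) +
    (P₂ 0 - P₁ 0)) * Real.log 2 + δ + 16 * Cr * φ + ρ) * J + ρ * J + 10 * (ρ * J) ≤ _) _))
  · ring
  · rw [hρ]
    have : 0 ≤ ε * J := by positivity
    linarith

/-- **The exchanged row, class level.** -/
theorem XR0.row_cls2 (X : XR0 S c k sn G al be h w o u Λ φ lam) (hΛ : 1 ≤ Λ)
    (hφ : 10 * φ ≤ u) {s₁ s₂ Cr η v : ℝ} {vq yq w₁ : ℚ} (hCr : 100 * ((k : ℝ) + 3) ^ 2 ≤ Cr)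
    (W : XWn k sn G (be / al) be w o s₁ s₂ φ Cr η lam v vq yq) (hs1 : 0 ≤ s₁)
    (hs12 : s₁ + 20 * φ ≤ s₂) (hη : Cr * φ ≤ η) (hs2 : s₂ + 10 * (Cr * φ) + 2 * η ≤ Λ * u)
    (hr : be / al * s₁ + (Cr + 10) * φ + 2 * η ≤ be / al * s₂) (hw : w ≤ w₁) (hwv : w₁ ≤ v)
    {π₀ ε : ℝ} (hπ : 0 < π₀) (hε : 0 < ε) : ∃ e₀ : ℝ, 0 < e₀ ∧ ∀ K : ℕ,
    Bas S (fun J F A => ∀ uV u₁ u₂,
      (qJets m c 0 k 0 (fun _ _ => w) (fun l _ => sn l w - φ)
        (fun l _ => nVx sn w s₂ Cr φ l)).P K e₀ J F A uV →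
      (qTg m c k (1 + 1) w (prx k sn w φ) (P1x k sn w (be / al) s₁ Cr φ)).P K e₀ J F A u₁ →
      (qTg m c k (1 + 1) w (prx k sn w φ) (P2x k sn w s₂ lam yq)).P K e₀ J F A u₂ →
      ∀ B : F.Ω → Prop, Sub B A → π₀ * Pe F.p A ≤ Pe F.p B →
      CH (Pool.Agent.H49.Ent.cond F.p B True) (fun ω => u₂ ω 1)
          (fun ω => (u₂ ω 0, ((u₁ ω 1, u₁ ω 0), (uV ω, (cR F A w₁ ω, F.W ω))))) ≤
        (((1 - h) * (lam yq - (sn (k + 1) w + be / al * s₁ - (Cr + 4) * φ)) + (s₂ - s₁)) *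
          Real.log 2 + φ + 16 * Cr * φ + ε) * J -
          CH (Pool.Agent.H49.Ent.cond F.p B True) (fun ω => u₂ ω 0)
            (fun ω => ((fun l : Fin k => F.X J ω (c l)), (cR F B v ω, F.W ω)))) := by
  have hu := X.u0
  have hb1 := X.be1
  have hba := X.bal
  have hφ0 := X.lad.φ0
  have hal : 0 < al := by linarith
  have hr1 : be / al ≤ 1 := (div_le_one hal).2 hba
  have hr0 : 0 ≤ be / al := by positivity
  have hbw : w ≤ w := le_rfl
  have hwo := X.wo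
  have ho1 := X.o1
  have hk0 : (0 : ℝ) ≤ k := Nat.cast_nonneg k
  have hΛu : u ≤ Λ * u := le_mul_of_one_le_left hu.le hΛ
  have hlev := X.lev
  have Lb := X.lad.toLadR.lad
  obtain ⟨r, hr'⟩ : ∃ r, r = be / al := ⟨_, rfl⟩
  rw [← hr'] at hr1 hr0 hr W ⊢
  have hCk : 100 * (k * φ) + 900 * φ ≤ Cr * φ := by
    have : 100 * (k * φ) + 900 * φ = (100 * (k : ℝ) + 900) * φ := by ring
    rw [this]
    refine mul_le_mul_of_nonneg_right (le_trans ?_ hCr) hφ0.le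
    nlinarith
  have hkφ : 0 ≤ (k : ℝ) * φ := by positivity
  have e1 : (Cr + 10) * φ = Cr * φ + 10 * φ := by ring
  have e2 : (Cr + 4) * φ = Cr * φ + 4 * φ := by ring
  have e3 : (3 * Cr + 10) * φ = 3 * (Cr * φ) + 10 * φ := by ring
  have e5 : (Cr + 8) * φ = Cr * φ + 8 * φ := by ring
  have e6 : (Cr + 5) * φ = Cr * φ + 5 * φ := by ring
  have hrs : r * s₂ ≤ s₂ := by
    have : r * s₂ ≤ 1 * s₂ := mul_le_mul_of_nonneg_right hr1 (by linarith)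
    linarith
  have hrs1 : 0 ≤ r * s₁ := mul_nonneg hr0 hs1
  have hbw' : w ≤ w := le_rfl
  have hwo' : w ≤ o := by linarith
  obtain ⟨w1, w2, w3, w4, w5, w6, w7, w8, w9, w10, w11, w12, w13, w14, w15⟩ := W
  rw [e5] at w6 w9
  rw [e6] at w4
  have w15' := abs_le.1 w15
  rw [e1] at hr
  -- the windows of the row
  obtain ⟨x, hx, x1, x2, x3, x3', x4, x5, x6⟩ := X.win hΛ hφ (s := s₂ + Cr * φ + 4 * φ)
    (by linarith) (by linarith)
  rw [← hr'] at x5 x6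
  have x4' := abs_le.1 x4
  have x5' := abs_le.1 x5
  have x7 : r * s₂ ≤ r * (s₂ + Cr * φ + 4 * φ) := mul_le_mul_of_nonneg_left (by linarith) hr0
  obtain ⟨x', hx', x8⟩ := X.lad.toLadR.gap (w + (s₂ + 3 * (Cr * φ))) (by linarith) (by linarith)
  have x8' := abs_le.1 x8
  have hvx : v ≤ x := by
    have l0 := abs_le.1 (X.lin0 v w1 (by linarith) w3)
    have : al * (v - w) ≤ al * (x - w) := by linarith
    have := le_of_mul_le_mul_left this hal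
    linarith
  have hxo : x' ≤ o := by linarith
  have hbx' : w ≤ x' := by linarith
  obtain ⟨rk, E₁, hrk, hE₁, hatt, hE2⟩ := X.att
  obtain ⟨η', hη'⟩ := X.rn w₁
  have p10 : P1x k sn w r s₁ Cr φ 0 = sn k w + s₁ := if_pos rfl
  have p11 : P1x k sn w r s₁ Cr φ 1 = sn (k + 1) w + r * s₁ - (Cr + 4) * φ := if_neg one_ne_zero
  have p20 : P2x k sn w s₂ lam yq 0 = sn k w + s₂ := if_pos rfl
  have p21 : P2x k sn w s₂ lam yq 1 = lam yq := if_neg one_ne_zero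
  obtain ⟨lk1, lk2, lk3⟩ := hlev k (by omega)
  obtain ⟨ln1, ln2, ln3⟩ := hlev (k + 1) le_rfl
  have hfx : ∀ i < k, sn i x' ≤ sn i w + (x' - w) + 2 * φ := fun i hi => by
    have := (abs_le.1 (Lb.flat hi hx' X.wG hbx' hxo hbw' hwo')).2
    linarith
  have hfb : ∀ i < k, sn i w + w ≤ sn i w + w + 2 * φ ∧ sn i w + w ≤ sn i w + w + 2 * φ :=
    fun i hi => by
    have := abs_le.1 (Lb.flat hi X.wG Lb.bG hbw' hwo' le_rfl Lb.bo)
    constructor <;> linarith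
  obtain ⟨e₀, he₀, H⟩ := ex_row2 X.lad X.img (w := w) (w₁ := w₁) (v := v) (x := x) (x' := x')
    (p := fun l => sn l w - φ) (n := nVx sn w s₂ Cr φ) (pr := prx k sn w φ)
    (P₁ := P1x k sn w r s₁ Cr φ) (P₂ := P2x k sn w s₂ lam yq) (E₁ := E₁) (h := h) (δ := φ) hCr
    X.wG w1 hx hx' hbw' hw hwv hvx (by linarith) hxo (by linarith) (fun i _ => le_rfl)
    (fun t _ => le_rfl)
    (fun i hi => by
      have := hfx i hi
      have := hlev i (by omega)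
      unfold nVx
      rw [e3]
      constructor <;> linarith)
    ⟨fun i hi => by
      have := hfb i hi
      unfold nVx
      rw [e3]
      have : 20 * ((k : ℝ) + 1) * φ = 20 * (k * φ) + 20 * φ := by ring
      rw [this]
      linarith, fun i hi l hl => by
      have a1 := hfb i hi
      have a2 := hfb l (hl.trans hi)
      have a3 := hlev l (by omega)
      unfold nVx
      rw [e3]
      have : 20 * ((k : ℝ) + 1) * φ = 20 * (k * φ) + 20 * φ := by ring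
      rw [this]
      linarith⟩
    (fun t ht => by
      rcases Nat.lt_or_ge t 1 with h1 | h1
      · obtain rfl : t = 0 := by omega
        rw [p10, p20]
        show 0 ≤ sn k w + s₁ ∧ sn k w + s₁ ≤ sn k w + s₂ ∧ sn k w + s₂ ≤ 1 ∧
          sn k w + s₁ + Cr * φ ≤ sn k v ∧ sn k w + s₂ + Cr * φ ≤ sn k x ∧
          sn k w + s₂ + Cr * φ ≤ sn k w + (x' - w)
        refine ⟨by linarith, by linarith, by linarith, by linarith, by linarith, by linarith⟩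
      · obtain rfl : t = 1 := by omega
        rw [p11, p21, e2]
        refine ⟨by linarith, by linarith, by linarith, by linarith, by linarith, by linarith⟩)
    (by
      rw [p20]
      have : 2 * Cr * φ = 2 * (Cr * φ) := by ring
      rw [this]
      linarith)
    (fun t ht l hl => by
      rcases Nat.lt_or_ge t 1 with h1 | h1
      · obtain rfl : t = 0 := by omega
        rw [p20]
        show sn k w + s₂ + Cr * φ ≤ sn k w + (1 - sn l w)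
        have := hlev l (by omega)
        linarith
      · obtain rfl : t = 1 := by omega
        rw [p21]
        have := hlev l (by omega)
        linarith)
    ⟨rk, hrk, hE₁, hatt, by
      rw [p21]
      linarith⟩
    (by
      rw [p11, p21]
      refine X.row _ _ ?_ ?_ ?_
      · rw [abs_le, e2]
        constructor <;> linarith
      · rw [abs_le]
        constructor <;> linarith
      · rw [e2]
        linarith)
    hη' hπ hε
  refine ⟨e₀, he₀, fun K => ?_⟩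
  refine Bas.mono 0 (H K) ?_
  rintro J - F A H uV u₁ u₂ hV h1 h2 B hB hm
  have key := H uV u₁ u₂ hV h1 h2 B hB hm
  rw [p10, p11, p20, p21] at key
  refine key.trans (le_of_eq ?_)
  ring

end Pool.NA98
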